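import Pool.Agent.Lib.MP_8a52c3_lc.Avg.Prob

/-! From monotone circuits to circuits with negations. -/

open Finset
open scoped BigOperators

namespace Pool.Agent.Lib.MP_8a52c3_lc.Avg

open Mono25 Pool.Agent.Lib.MP_8a52c3_lc.Neg

variable {U : Type} [Fintype U] [DecidableEq U]

omit [Fintype U] in
theorem chi_le {x y : Finset U} (h : x ⊆ y) (i : U) (hi : chi x i = true) : chi y i = true := by
  simp only [chi, decide_eq_true_eq] at hi ⊢
  exact h hi

omit [Fintype U] in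
theorem chi_mono {S : ℕ} {g : Fin S → (U → Bool) → ℝ} (hg : Mon g) (v : Fin S) :
    Monotone fun x : Finset U => ind (0 < g v (chi x)) := fun _ _ h =>
  ind_mono fun h0 => h0.trans_le (hg.mono v _ _ (chi_le h))

theorem agree {S : ℕ} {δ β : ℝ} (f : Finset U → Prop) (hf : ∀ x y, x ⊆ y → f x → f y)
    (hβ : |Ex (1 / 2) (fun x => ind (f x)) - 1 / 2| ≤ β)
    (hδ : ∀ (g : Fin S → (U → Bool) → ℝ) (v : Fin S), Mon g →
      Ex (1 / 2) (fun x => ind (0 < g v (chi x)) * ind (f x)) ≤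
        Ex (1 / 2) (fun x => ind (0 < g v (chi x))) * Ex (1 / 2) (fun x => ind (f x)) + δ)
    {T : Finset (Fin S)} {g : Fin S → (U → Bool) → ℝ} (hg : Ngt T g) (v : Fin S) :
    Ex (1 / 2) (fun x => ind (0 < g v (chi x) ↔ f x)) ≤ 1 / 2 + β + 4 * 2 ^ T.card * δ := by
  obtain ⟨G, r, hG, hc⟩ := cover hg v
  have p0 : (0 : ℝ) ≤ 1 / 2 := by norm_num
  have p1 : (1 / 2 : ℝ) ≤ 1 := by norm_num
  obtain ⟨H, hH⟩ : ∃ H : Finset (Fin S) × Bool → Finset U → ℝ,
      ∀ a x, H a x = ind (0 < G a.1 (r a.1 a.2) (chi x)) := ⟨_, fun _ _ => rfl⟩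
  have hHm : ∀ a, Monotone (H a) := fun a x y h => by
    rw [hH, hH]
    exact chi_mono (hG _) _ h
  have hm : Monotone fun x =>
      ∑ a ∈ T.powerset ×ˢ (univ : Finset Bool), H a x - ind (0 < g v (chi x)) := by
    intro x y h
    have h1 : ∑ a ∈ T.powerset ×ˢ (univ : Finset Bool), H a x ≤
        ∑ a ∈ T.powerset ×ˢ (univ : Finset Bool), H a y := sum_le_sum fun a _ => hHm a h
    by_cases h2 : g v (chi x) ≤ 0 ∧ 0 < g v (chi y)
    · obtain ⟨α, hα, b, h3, h4⟩ := hc _ _ (chi_le h) h2.1 h2.2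
      have h5 := single_le_sum (f := fun a => H a y - H a x)
        (s := T.powerset ×ˢ (univ : Finset Bool)) (fun a _ => sub_nonneg.2 (hHm a h))
        (mem_product.2 ⟨hα, mem_univ _⟩ : (α, b) ∈ _)
      rw [sum_sub_distrib, hH, hH, ind_true h4, ind_false h3.not_gt] at h5
      simp only [ind_true h2.2, ind_false h2.1.not_gt]
      linarith
    · have h3 : ind (0 < g v (chi y)) ≤ ind (0 < g v (chi x)) :=
        ind_mono fun h4 => not_le.1 fun h5 => h2 ⟨h5, h4⟩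
      simp only
      linarith
  have h1 := harris p0 p1 hm (ψ := fun x => ind (f x)) fun x y h => ind_mono (hf x y h)
  simp only [sub_mul, sum_mul] at h1
  rw [Ex_sub, Ex_sub, Ex_sum, Ex_sum, sub_mul, sum_mul] at h1
  have h2 : ∑ a ∈ T.powerset ×ˢ (univ : Finset Bool), Ex (1 / 2) (fun x => H a x * ind (f x)) ≤
      ∑ a ∈ T.powerset ×ˢ (univ : Finset Bool),
        (Ex (1 / 2) (H a) * Ex (1 / 2) (fun x => ind (f x)) + δ) := sum_le_sum fun a _ => by
    have e : H a = fun x => ind (0 < G a.1 (r a.1 a.2) (chi x)) := funext (hH a)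
    rw [e]
    exact hδ _ _ (hG _)
  rw [sum_add_distrib, sum_const, card_product, card_powerset, card_univ, Fintype.card_bool,
    nsmul_eq_mul] at h2
  push_cast at h2
  have e : (fun x => ind (0 < g v (chi x) ↔ f x)) = fun x => (1 - ind (0 < g v (chi x)) -
      ind (f x)) + 2 * (ind (0 < g v (chi x)) * ind (f x)) := by
    funext x
    by_cases h3 : 0 < g v (chi x) <;> by_cases h4 : f x <;> simp [ind, h3, h4]
    norm_num
  have h3 : 0 ≤ Ex (1 / 2) fun x : Finset U => ind (0 < g v (chi x)) :=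
    (Ex_const _ _).ge.trans (Ex_mono p0 p1 fun _ => ind_nonneg _)
  have h4 : (Ex (1 / 2) fun x : Finset U => ind (0 < g v (chi x))) ≤ 1 :=
    (Ex_mono p0 p1 fun _ => ind_le_one _).trans_eq (Ex_const _ _)
  rw [e, Ex_add, Ex_sub, Ex_sub, Ex_const, Ex_mul]
  obtain ⟨h5, h6⟩ := abs_le.1 hβ
  nlinarith [mul_nonneg h3 (sub_nonneg.2 h6), mul_nonneg (sub_nonneg.2 h4) (sub_nonneg.2 h5)]

end Pool.Agent.Lib.MP_8a52c3_lc.Avg
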