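import Pool.Agent.Lib.MP_8a52c3_lc.Avg.Red

/-! A small monotone circuit that accepts planted sets accepts sparse random sets. -/

open Finset
open scoped BigOperators

namespace Pool.Agent.Lib.MP_8a52c3_lc.Avg

open Mono25 Pool.Agent.Lib.MP_8a52c3_lc.Neg

variable {U Q : Type} [Fintype U] [DecidableEq U] [Fintype Q]

omit [Fintype U] in
/-- One gate applied to approximations of the earlier gates. -/
theorem approx_gate {l S : ℕ} (hl1 : 1 ≤ l) {g : Fin S → (U → Bool) → ℝ} (hg : Mon g)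
    (v : Fin S) :
    ∃ Φ : (∀ u, u < v → {ψ : Finset U → ℝ // Loc l ψ}) → {φ : Finset U → ℝ // Loc (2 * l) φ},
      ∀ (G : Fin S → {ψ : Finset U → ℝ // Loc l ψ}) (y : Finset U),
        ((∀ u, u < v → g u (chi y) ≤ (G u).1 y) → g v (chi y) ≤ (Φ fun u _ => G u).1 y) ∧
        ((∀ u, u < v → (G u).1 y ≤ g u (chi y)) → (Φ fun u _ => G u).1 y ≤ g v (chi y)) := by
  rcases hg v with ⟨a, ha⟩ | ⟨i, hi⟩ | ⟨u, w, hu, hw, φ, hφ, e⟩
  · refine ⟨fun _ => ⟨fun _ => a, monotone_const, fun y => ⟨∅, empty_subset _, by simp, le_rfl⟩⟩,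
      fun G y => ⟨fun _ => (ha _).le, fun _ => (ha _).ge⟩⟩
  · have h1 : ∀ y : Finset U, g v (chi y) = if i ∈ y then 1 else 0 := fun y => by
      rw [hi]
      simp [chi]
    refine ⟨fun _ => ⟨fun y => if i ∈ y then 1 else 0, fun y y' h => ?_,
      fun y => ⟨y ∩ {i}, inter_subset_left, ?_, ?_⟩⟩,
      fun G y => ⟨fun _ => (h1 _).le, fun _ => (h1 _).ge⟩⟩
    · by_cases h2 : i ∈ y
      · simp only [if_pos h2, if_pos (h h2), le_refl]
      · simp only [if_neg h2]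
        split_ifs <;> norm_num
    · have := card_le_card (inter_subset_right (s₁ := y) (s₂ := {i}))
      rw [card_singleton] at this
      omega
    · by_cases h2 : i ∈ y <;> simp [h2]
  · refine ⟨fun R => ⟨fun y => φ ((R u hu).1 y) ((R w hw).1 y),
      fun y y' h => hφ _ _ _ _ ((R u hu).2.1 h) ((R w hw).2.1 h), fun y => ?_⟩,
      fun G y => ⟨fun h => ?_, fun h => ?_⟩⟩
    · obtain ⟨F, hF, hc, hle⟩ := (R u hu).2.2 y
      obtain ⟨F', hF', hc', hle'⟩ := (R w hw).2.2 y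
      refine ⟨F ∪ F', union_subset hF hF', (card_union_le _ _).trans (by omega), ?_⟩
      exact hφ _ _ _ _ (hle.trans ((R u hu).2.1 (subset_union_left (s₂ := F'))))
        (hle'.trans ((R w hw).2.1 (subset_union_right (s₁ := F))))
    · rw [e]
      exact hφ _ _ _ _ (h u hu) (h w hw)
    · rw [e]
      exact hφ _ _ _ _ (h u hu) (h w hw)

/-- Approximations of all gates. -/
theorem approx_exists {P ρ : ℝ} {l m S : ℕ} (h0 : 0 < ρ) (h1 : m * ρ ≤ 1) (hm : 1 ≤ m)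
    (hP : 0 < P) (hl1 : 1 ≤ l) (hl : 8 * l ≤ P * ρ) {K : Q → Finset U} (hK : Spr (2 * l) P K)
    {g : Fin S → (U → Bool) → ℝ} (hg : Mon g) :
    ∃ ψ φ : Fin S → Finset U → ℝ, (∀ v, Loc l (ψ v)) ∧
      (∀ v, 𝔼 p, ind (ψ v (K p) < φ v (K p)) ≤ (1 / 2) ^ l) ∧
      (∀ v, Ex (m * ρ) (fun G => ind (φ v G < ψ v G)) ≤
        ((Fintype.card U : ℝ) + 1) ^ l * (1 / 2) ^ m) ∧
      (∀ y, (∀ u, φ u y ≤ ψ u y) → ∀ v, g v (chi y) ≤ ψ v y) ∧
      ∀ y, (∀ u, ψ u y ≤ φ u y) → ∀ v, ψ v y ≤ g v (chi y) := by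
  choose Φ hΦ using approx_gate hl1 hg
  choose rd hrd using fun φ : {φ : Finset U → ℝ // Loc (2 * l) φ} => red h0 h1 hm hP hl hK φ.2
  obtain ⟨G, hG⟩ : ∃ G : Fin S → {ψ : Finset U → ℝ // Loc l ψ},
      ∀ v, G v = ⟨rd (Φ v fun u _ => G u), (hrd _).1⟩ :=
    ⟨_, fun v => WellFounded.fix_eq (wellFounded_lt (α := Fin S))
      (fun v R => (⟨rd (Φ v R), (hrd _).1⟩ : {ψ : Finset U → ℝ // Loc l ψ})) v⟩
  have hG' : ∀ v, (G v).1 = rd (Φ v fun u _ => G u) := fun v => congrArg Subtype.val (hG v)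
  refine ⟨fun v => (G v).1, fun v => (Φ v fun u _ => G u).1, fun v => (G v).2, fun v => ?_,
    fun v => ?_, fun y h v => ?_, fun y h v => ?_⟩
  · simp only [hG' v]
    exact (hrd _).2.1
  · simp only [hG' v]
    exact (hrd _).2.2
  · induction v using WellFoundedLT.induction with
    | ind v ih => exact ((hΦ v G y).1 ih).trans (h v)
  · induction v using WellFoundedLT.induction with
    | ind v ih => exact (h v).trans ((hΦ v G y).2 ih)

theorem approx_ind {S : ℕ} {a b : Prop} {c : Fin S → Prop} (h : (∀ u, ¬ c u) → a → b) :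
    ind a ≤ ind b + ∑ u, ind (c u) := by
  by_cases hc : ∀ u, ¬ c u
  · have h1 : 0 ≤ ∑ u, ind (c u) := sum_nonneg fun u _ => ind_nonneg _
    linarith [ind_mono (h hc)]
  · push Not at hc
    obtain ⟨u, hu⟩ := hc
    have h1 : ind (c u) ≤ ∑ u, ind (c u) :=
      single_le_sum (f := fun u => ind (c u)) (fun u _ => ind_nonneg _) (mem_univ u)
    rw [ind_true hu] at h1
    linarith [ind_le_one a, ind_nonneg b]

/-- A local function that accepts planted sets accepts random sets. -/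
theorem approx_loc {P q : ℝ} {l : ℕ} (h0 : 0 < q) (h1 : q ≤ 1) (hP : 0 < P)
    (hl : 2 * l ≤ P * q) {K : Q → Finset U} (hK : Spr (2 * l) P K) {ψ : Finset U → ℝ}
    (hψ : Loc l ψ) :
    𝔼 p, ind (0 < ψ (K p)) ≤ 2 * Ex q fun G => ind (0 < ψ G) := by
  choose F hF hc hle using fun p => hψ.2 (K p)
  have hw : ∀ p, 0 ≤ ind (0 < ψ (K p)) / (Fintype.card Q : ℝ) := fun p =>
    div_nonneg (ind_nonneg _) (Nat.cast_nonneg _)
  have h2 := link (κ := 1) h0 h1 hP hl (fun p => ind (0 < ψ (K p)) / (Fintype.card Q : ℝ)) hw F hc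
    fun T hT => by
      rw [one_mul]
      refine le_trans ?_ (hK T (by omega))
      rw [Mono.ex_eq_sum, sum_div]
      refine sum_le_sum fun p _ => ?_
      rw [div_mul_eq_mul_div]
      refine div_le_div_of_nonneg_right ?_ (Nat.cast_nonneg _)
      have h3 : ind (T ⊆ F p) ≤ ind (T ⊆ K p) := ind_mono fun h => h.trans (hF p)
      nlinarith [ind_le_one (0 < ψ (K p)), ind_nonneg (0 < ψ (K p)), ind_nonneg (T ⊆ F p)]
  rw [Mono.ex_eq_sum, sum_div]
  refine h2.trans ?_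
  rw [mul_one]
  refine mul_le_mul_of_nonneg_left (Ex_mono h0.le h1 fun G => ind_mono ?_) (by norm_num)
  rintro ⟨p, hp, hG⟩
  have h3 : 0 < ψ (K p) := by
    by_contra h
    rw [ind_false h, zero_div] at hp
    exact lt_irrefl _ hp
  exact h3.trans_le ((hle p).trans (hψ.1 hG))

theorem approx {P ρ : ℝ} {l m S : ℕ} (h0 : 0 < ρ) (h1 : m * ρ ≤ 1) (hm : 1 ≤ m) (hP : 0 < P)
    (hl1 : 1 ≤ l) (hl : 8 * l ≤ P * ρ) {K : Q → Finset U} (hK : Spr (2 * l) P K)
    {g : Fin S → (U → Bool) → ℝ} (hg : Mon g) (v : Fin S) :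
    𝔼 p, ind (0 < g v (chi (K p))) ≤ 2 * Ex (m * ρ) (fun G => ind (0 < g v (chi G))) +
      S * ((1 / 2) ^ l + 2 * (((Fintype.card U : ℝ) + 1) ^ l * (1 / 2) ^ m)) := by
  obtain ⟨ψ, φ, hL, e1, e2, hA, hB⟩ := approx_exists h0 h1 hm hP hl1 hl hK hg
  have hm' : (1 : ℝ) ≤ m := by exact_mod_cast hm
  have hq : 0 < m * ρ := by positivity
  have hl' : 2 * (l : ℝ) ≤ P * (m * ρ) := by
    have h2 : P * ρ ≤ P * (m * ρ) := mul_le_mul_of_nonneg_left (by nlinarith) hP.le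
    have h3 : (0 : ℝ) ≤ l := Nat.cast_nonneg _
    linarith
  have a1 : 𝔼 p, ind (0 < g v (chi (K p))) ≤ 𝔼 p, ind (0 < ψ v (K p)) + S * (1 / 2) ^ l := by
    refine (Mono.ex_mono fun p => approx_ind (b := 0 < ψ v (K p))
      (c := fun u => ψ u (K p) < φ u (K p))
      fun h h' => h'.trans_le (hA _ (fun u => not_lt.1 (h u)) v)).trans ?_
    rw [expect_add_distrib, expect_sum_comm]
    refine add_le_add_right ((sum_le_sum fun u _ => e1 u).trans ?_) _
    rw [sum_const, card_univ, Fintype.card_fin, nsmul_eq_mul]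
  have a2 : Ex (m * ρ) (fun G => ind (0 < ψ v G)) ≤ Ex (m * ρ) (fun G => ind (0 < g v (chi G))) +
      S * (((Fintype.card U : ℝ) + 1) ^ l * (1 / 2) ^ m) := by
    refine (Ex_mono hq.le h1 fun G => approx_ind (b := 0 < g v (chi G))
      (c := fun u => φ u G < ψ u G)
      fun h h' => h'.trans_le (hB _ (fun u => not_lt.1 (h u)) v)).trans ?_
    rw [Ex_add, Ex_sum]
    refine add_le_add_right ((sum_le_sum fun u _ => e2 u).trans ?_) _
    rw [sum_const, card_univ, Fintype.card_fin, nsmul_eq_mul]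
  have a3 := approx_loc hq h1 hP hl' hK (hL v)
  linarith

end Pool.Agent.Lib.MP_8a52c3_lc.Avg
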