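import Pool.Agent.Lib.MP_8a52c3_lc.Avg.Spread

/-! The function is almost balanced. -/

open Finset
open scoped BigOperators

namespace Pool.Agent.Lib.MP_8a52c3_lc.Avg

open Mono25

variable {U Q : Type} [Fintype U] [DecidableEq U] [Fintype Q]

theorem bal_upper {k : ℕ} (K : Q → Finset U) (hK : ∀ p, (K p).card = k) :
    Ex (1 / 2) (fun x => ind (∃ p, K p ⊆ x)) ≤ Fintype.card Q / 2 ^ k := by
  have h1 : ∀ x : Finset U, ind (∃ p, K p ⊆ x) ≤ ∑ p, ind (K p ⊆ x) := by
    intro x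
    by_cases h : ∃ p, K p ⊆ x
    · obtain ⟨p, hp⟩ := h
      refine (ind_le_one _).trans ((ind_true hp).ge.trans ?_)
      exact single_le_sum (f := fun p => ind (K p ⊆ x)) (fun _ _ => ind_nonneg _) (mem_univ p)
    · rw [ind_false h]
      exact sum_nonneg fun _ _ => ind_nonneg _
  refine (Ex_mono (by norm_num) (by norm_num) h1).trans ?_
  rw [Ex_sum]
  have h2 : ∀ p, Ex (1 / 2) (fun x => ind (K p ⊆ x)) = (1 / 2) ^ k := fun p => by
    rw [← hK p]
    exact ms_supset (1 / 2) (K p)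
  simp only [h2]
  rw [sum_const, card_univ, nsmul_eq_mul, one_div_pow, mul_one_div]

theorem bal_exp {k : ℕ} {P : ℝ} (hP : 0 < P) (hk : 2 * k ≤ P) : (1 / P + 1) ^ k ≤ 2 := by
  have h1 : (1 / P + 1) ^ k ≤ Real.exp (1 / P) ^ k :=
    pow_le_pow_left₀ (by positivity) (Real.add_one_le_exp _) k
  have h2 : (k : ℝ) * (1 / P) ≤ 1 / 2 := by
    rw [mul_one_div, div_le_iff₀ hP]
    linarith
  have h3 : Real.exp (1 / 2) ≤ 2 := by
    have h4 : Real.exp (1 / 2) * Real.exp (1 / 2) = Real.exp 1 := by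
      rw [← Real.exp_add]
      norm_num
    have h5 := Real.exp_one_lt_d9
    nlinarith [Real.exp_pos (1 / 2)]
  rw [← Real.exp_nat_mul] at h1
  exact h1.trans ((Real.exp_le_exp.2 h2).trans h3)

omit [Fintype U] in
theorem bal_pair [Nonempty Q] {k c : ℕ} {P : ℝ} (hP : 0 < P) (hk : 2 * k ≤ P) (K : Q → Finset U)
    (hK : ∀ p, (K p).card = k) (hs : Spr c P K) (hi : ∀ p p', p ≠ p' → (K p ∩ K p').card ≤ c)
    (p : Q) : ∑ p', (2 : ℝ) ^ (K p ∩ K p').card ≤ 2 ^ k + 2 * Fintype.card Q := by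
  classical
  have hQ : (0 : ℝ) < Fintype.card Q := by exact_mod_cast Fintype.card_pos
  have h1 : ∀ p', (2 : ℝ) ^ (K p ∩ K p').card ≤ (if p = p' then 2 ^ k else 0) +
      ∑ T ∈ (K p).powerset.filter (fun T => T.card ≤ c), ind (T ⊆ K p') := by
    intro p'
    split_ifs with h
    · subst h
      rw [inter_self, hK]
      exact le_add_of_nonneg_right (sum_nonneg fun _ _ => ind_nonneg _)
    · rw [zero_add]
      calc (2 : ℝ) ^ (K p ∩ K p').card = ∑ T ∈ (K p ∩ K p').powerset, ind (T ⊆ K p') := by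
            rw [sum_congr rfl fun T hT =>
              ind_true ((mem_powerset.1 hT).trans inter_subset_right),
              sum_const, card_powerset, nsmul_eq_mul, mul_one, Nat.cast_pow, Nat.cast_ofNat]
        _ ≤ _ := by
            refine sum_le_sum_of_subset_of_nonneg (fun T hT => ?_) fun _ _ _ => ind_nonneg _
            have hT' := mem_powerset.1 hT
            exact mem_filter.2 ⟨mem_powerset.2 (hT'.trans inter_subset_left),
              (card_le_card hT').trans (hi p p' h)⟩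
  refine (sum_le_sum fun p' _ => h1 p').trans ?_
  rw [sum_add_distrib, sum_ite_eq, if_pos (mem_univ p), sum_comm]
  refine add_le_add le_rfl ?_
  calc ∑ T ∈ (K p).powerset.filter (fun T => T.card ≤ c), ∑ p', ind (T ⊆ K p')
      ≤ ∑ T ∈ (K p).powerset.filter (fun T => T.card ≤ c), (1 / P) ^ T.card * Fintype.card Q := by
        refine sum_le_sum fun T hT => ?_
        have h2 := hs T (mem_filter.1 hT).2
        rwa [Fintype.expect_eq_sum_div_card, div_le_iff₀ hQ] at h2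
    _ ≤ ∑ T ∈ (K p).powerset, (1 / P) ^ T.card * Fintype.card Q :=
        sum_le_sum_of_subset_of_nonneg (filter_subset _ _) fun _ _ _ => by positivity
    _ = (1 / P + 1) ^ k * Fintype.card Q := by
        rw [← sum_mul, ← hK p, ← sum_pow_mul_eq_add_pow]
        simp
    _ ≤ 2 * Fintype.card Q := mul_le_mul_of_nonneg_right (bal_exp hP hk) hQ.le

theorem bal_lower [Nonempty Q] {k c : ℕ} {P lam : ℝ} (hP : 0 < P) (hk : 2 * k ≤ P)
    (K : Q → Finset U) (hK : ∀ p, (K p).card = k) (hs : Spr c P K)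
    (hi : ∀ p p', p ≠ p' → (K p ∩ K p').card ≤ c) (hlam : lam = Fintype.card Q / 2 ^ k) :
    lam - 2 * lam ^ 2 ≤ Ex (1 / 2) (fun x => ind (∃ p, K p ⊆ x)) := by
  have hQ : (0 : ℝ) < Fintype.card Q := by exact_mod_cast Fintype.card_pos
  have h1 := sm (ρ := 1 / 2) (by norm_num) (by norm_num) (fun _ : Q => (1 : ℝ))
    (fun _ => zero_le_one) K
  have hu := bal_upper K hK
  have h0 : 0 ≤ Ex (1 / 2) (fun x => ind (∃ p, K p ⊆ x)) :=
    (Ex_const (U := U) (1 / 2) 0).ge.trans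
      (Ex_mono (by norm_num) (by norm_num) fun _ => ind_nonneg _)
  simp only [zero_lt_one, true_and, one_mul, one_div_one_div, sum_const, card_univ, nsmul_eq_mul,
    mul_one] at h1
  rw [← hlam] at hu
  generalize Ex (1 / 2) (fun x => ind (∃ p, K p ⊆ x)) = a at h0 h1 hu ⊢
  have h2 : ∑ p, ∑ p', (2 : ℝ) ^ (K p ∩ K p').card ≤
      Fintype.card Q * (2 ^ k + 2 * Fintype.card Q) := by
    refine (sum_le_sum fun p _ => bal_pair hP hk K hK hs hi p).trans ?_
    rw [sum_const, card_univ, nsmul_eq_mul]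
  have h3 := h1.trans (mul_le_mul_of_nonneg_left h2 h0)
  have h2k : (0 : ℝ) < 2 ^ k := by positivity
  have h4 : (Fintype.card Q : ℝ) = lam * 2 ^ k := by
    rw [hlam]
    field_simp
  have h5 : (Fintype.card Q : ℝ) ≤ a * (2 ^ k + 2 * Fintype.card Q) := by
    refine le_of_mul_le_mul_left ?_ hQ
    nlinarith
  have hl : 0 ≤ lam := by
    rw [hlam]
    positivity
  have h6 : lam ≤ a * (1 + 2 * lam) := by
    refine le_of_mul_le_mul_right ?_ h2k
    rw [h4] at h5
    nlinarith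
  nlinarith [mul_le_mul_of_nonneg_left hu hl]

theorem bal_pow {a b : ℝ} (hb : 0 ≤ b) (hab : b ≤ a) (ha : a ≤ 1) (M : ℕ) :
    a ^ M ≤ b ^ M + M * (a - b) := by
  induction M with
  | zero => simp
  | succ M ih =>
    have h1 : b ^ M ≤ 1 := pow_le_one₀ hb (hab.trans ha)
    have h2 : 0 ≤ (M : ℝ) * (a - b) := mul_nonneg (Nat.cast_nonneg M) (by linarith)
    have h3 := mul_le_mul_of_nonneg_right ih (hb.trans hab)
    have h4 := mul_le_mul_of_nonneg_left ha h2
    have h5 := mul_le_mul_of_nonneg_right h1 (sub_nonneg.2 hab)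
    rw [pow_succ, pow_succ]
    push_cast
    nlinarith

theorem balance [Nonempty Q] {M k c n : ℕ} {P lam : ℝ} {B : Fin M → Finset U}
    {K : Fin M → Q → Finset U} (H : Blk k c n P B K) (hP : 0 < P) (hk : 2 * k ≤ P)
    (hlam : lam = Fintype.card Q / 2 ^ k) (h1 : lam ≤ 1 / 2) (h2 : M * lam ≤ 1)
    (h3 : 1 / 2 ≤ (1 - lam) ^ M) (h4 : (1 - lam) ^ (M + 1) < 1 / 2) :
    |Ex (1 / 2) (fun x => ind (∃ j p, K j p ⊆ x)) - 1 / 2| ≤ 3 * lam := by
  have hl : 0 ≤ lam := by
    rw [hlam]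
    positivity
  have e0 : ∀ j (x : Finset U), (∃ p, K j p ⊆ x ∩ B j) ↔ ∃ p, K j p ⊆ x := fun j x =>
    exists_congr fun p => ⟨fun h => h.trans inter_subset_left, fun h => subset_inter h (H.sub j p)⟩
  have e1 : ∀ x : Finset U, ind (∃ j p, K j p ⊆ x) =
      1 - ∏ j, (1 - ind (∃ p, K j p ⊆ x ∩ B j)) := by
    intro x
    simp only [e0]
    by_cases h : ∃ j p, K j p ⊆ x
    · rw [ind_true h]
      obtain ⟨j, hj⟩ := h
      rw [prod_eq_zero (mem_univ j) (by rw [ind_true hj, sub_self]), sub_zero]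
    · rw [ind_false h, prod_eq_one fun j _ => by rw [ind_false fun hj => h ⟨j, hj⟩, sub_zero],
        sub_self]
  have e2 := Ex_indep (1 / 2) B H.disj fun j y => 1 - ind (∃ p, K j p ⊆ y)
  simp only [e1]
  rw [Ex_sub, Ex_const, e2]
  simp only [e0, Ex_sub, Ex_const]
  have hu : ∀ j, Ex (1 / 2) (fun x => ind (∃ p, K j p ⊆ x)) ≤ lam := fun j =>
    hlam ▸ bal_upper (K j) (H.cardK j)
  have hd : ∀ j, lam - 2 * lam ^ 2 ≤ Ex (1 / 2) (fun x => ind (∃ p, K j p ⊆ x)) := fun j =>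
    bal_lower hP hk (K j) (H.cardK j) (H.spr j) (H.inter j) hlam
  have k1 : (1 - lam) ^ M ≤ ∏ j, (1 - Ex (1 / 2) fun x => ind (∃ p, K j p ⊆ x)) := by
    calc (1 - lam) ^ M = ∏ _j : Fin M, (1 - lam) := by simp
      _ ≤ _ := prod_le_prod (fun _ _ => by linarith) fun j _ => by linarith [hu j]
  have k2 : ∏ j, (1 - Ex (1 / 2) fun x => ind (∃ p, K j p ⊆ x)) ≤
      (1 - lam + 2 * lam ^ 2) ^ M := by
    calc _ ≤ ∏ _j : Fin M, (1 - lam + 2 * lam ^ 2) :=
          prod_le_prod (fun j _ => by linarith [hu j]) fun j _ => by linarith [hd j]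
      _ = _ := by simp
  have k3 := bal_pow (a := 1 - lam + 2 * lam ^ 2) (b := 1 - lam) (by linarith) (by nlinarith)
    (by nlinarith) M
  have k4 : (1 - lam) ^ M ≤ 1 / 2 + lam := by
    rw [pow_succ] at h4
    refine le_of_mul_le_mul_right (a := 1 - lam) ?_ (by linarith)
    nlinarith
  have k5 := mul_le_mul_of_nonneg_right h2 hl
  rw [abs_le]
  constructor <;> nlinarith

end Pool.Agent.Lib.MP_8a52c3_lc.Avg
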