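import Pool.Agent.Lib.MP_8a52c3_lc.Avg.Prob

/-! Adding a sparse random set to a random block is almost invisible. -/

open Finset
open scoped BigOperators

namespace Pool.Agent.Lib.MP_8a52c3_lc.Avg

open Mono25

variable {U : Type} [Fintype U] [DecidableEq U]

theorem sprinkle_aux_prod (ρ : ℝ) (S : Finset U) (a b : U → ℝ) :
    Ex ρ (fun x => ∏ u ∈ S, if u ∈ x then a u else b u) =
      ∏ u ∈ S, (ρ * a u + (1 - ρ) * b u) := by
  have h1 : (fun x : Finset U => ∏ u ∈ S, if u ∈ x then a u else b u) =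
      fun x => ∏ u, if u ∈ x then (if u ∈ S then a u else 1) else (if u ∈ S then b u else 1) := by
    funext x
    rw [← univ_inter S, ← prod_ite_mem, univ_inter]
    exact prod_congr rfl fun u _ => by split_ifs <;> rfl
  rw [h1, Ex_prod, ← univ_inter S, ← prod_ite_mem, univ_inter]
  refine prod_congr rfl fun u _ => ?_
  split_ifs
  · rfl
  · ring

omit [Fintype U] in
theorem sprinkle_aux_ind (B G x : Finset U) :
    (2 : ℝ) ^ (G ∩ B).card * ind (G ∩ B ⊆ x) =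
      ∏ u ∈ B, if u ∈ G then (if u ∈ x then 2 else 0) else 1 := by
  rw [prod_ite_mem, inter_comm B G]
  by_cases h : G ∩ B ⊆ x
  · rw [ind_true h, mul_one, ← prod_const]
    exact prod_congr rfl fun u hu => (if_pos (h hu)).symm
  · rw [ind_false h, mul_zero]
    obtain ⟨u, hu, hx⟩ := not_subset.1 h
    exact (prod_eq_zero hu (if_neg hx)).symm

theorem Ex_sprinkle (q : ℝ) (B : Finset U) (φ : Finset U → ℝ) :
    Ex (1 / 2) (fun x => Ex q fun G => φ (x ∪ G ∩ B)) =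
      Ex (1 / 2) fun x => φ x * ∏ u ∈ B, if u ∈ x then 1 + q else 1 - q := by
  have h1 : ∀ G : Finset U, Ex (1 / 2) (fun x => φ (x ∪ G ∩ B)) =
      Ex (1 / 2) fun x => φ x * ∏ u ∈ B, if u ∈ G then (if u ∈ x then 2 else 0) else 1 := by
    intro G
    have h2 : (fun x => φ x * ∏ u ∈ B, if u ∈ G then (if u ∈ x then (2 : ℝ) else 0) else 1) =
        fun x => (2 : ℝ) ^ (G ∩ B).card * (φ x * ind (G ∩ B ⊆ x)) := by
      funext x
      rw [← sprinkle_aux_ind]
      ring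
    rw [h2, Ex_mul, Ex_plant, ← mul_assoc, ← mul_pow]
    norm_num
  rw [Ex_comm]
  simp only [h1]
  rw [Ex_comm]
  refine congrArg _ (funext fun x => ?_)
  rw [Ex_mul, sprinkle_aux_prod]
  refine congrArg _ (prod_congr rfl fun u _ => ?_)
  split_ifs <;> ring

theorem sprinkle_aux_one (q : ℝ) (S : Finset U) :
    Ex (1 / 2) (fun x => ∏ u ∈ S, if u ∈ x then 1 + q else 1 - q) = 1 := by
  rw [sprinkle_aux_prod (1 / 2) S (fun _ => 1 + q) (fun _ => 1 - q)]
  exact prod_eq_one fun u _ => by ring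

theorem sprinkle_aux_sq (q : ℝ) (S : Finset U) :
    Ex (1 / 2) (fun x => (∏ u ∈ S, if u ∈ x then 1 + q else 1 - q) *
      ∏ u ∈ S, if u ∈ x then 1 + q else 1 - q) = (1 + q ^ 2) ^ S.card := by
  have h1 : (fun x : Finset U => (∏ u ∈ S, if u ∈ x then 1 + q else 1 - q) *
      ∏ u ∈ S, if u ∈ x then 1 + q else 1 - q) =
      fun x => ∏ u ∈ S, if u ∈ x then (1 + q) ^ 2 else (1 - q) ^ 2 := by
    funext x
    rw [← prod_mul_distrib]
    exact prod_congr rfl fun u _ => by split_ifs <;> ring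
  rw [h1, sprinkle_aux_prod (1 / 2) S (fun _ => (1 + q) ^ 2) (fun _ => (1 - q) ^ 2), ← prod_const]
  exact prod_congr rfl fun u _ => by ring

theorem sprinkle_aux_cov (f g : Finset U → ℝ) (hf : Ex (1 / 2) f = 1) (hg : Ex (1 / 2) g = 1) :
    Ex (1 / 2) (fun x => (f x - 1) * (g x - 1)) = Ex (1 / 2) (fun x => f x * g x) - 1 := by
  have h : (fun x => (f x - 1) * (g x - 1)) = fun x => (f x * g x - f x) - (g x - 1) := by
    funext x
    ring
  rw [h, Ex_sub, Ex_sub, Ex_sub, Ex_const, hf, hg]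
  ring

theorem sprinkle_aux_pow {q : ℝ} {m n : ℕ} (hmn : m ≤ n) (hq : q ^ 2 * n ≤ 1) :
    (1 + q ^ 2) ^ m - 1 ≤ 2 * q ^ 2 * n := by
  have h0 : 0 ≤ q ^ 2 * n := by positivity
  have h1 : (1 + q ^ 2) ^ m ≤ (1 + q ^ 2) ^ n :=
    pow_le_pow_right₀ (by nlinarith [sq_nonneg q]) hmn
  have h2 : (1 + q ^ 2) ^ n ≤ Real.exp (q ^ 2 * n) := by
    rw [mul_comm, Real.exp_nat_mul]
    exact pow_le_pow_left₀ (by positivity) (by linarith [Real.add_one_le_exp (q ^ 2)]) n
  have h3 := Real.abs_exp_sub_one_le (x := q ^ 2 * n) (by rwa [abs_of_nonneg h0])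
  rw [abs_of_nonneg h0] at h3
  linarith [le_abs_self (Real.exp (q ^ 2 * n) - 1)]

theorem sprinkle_le {M n : ℕ} (hM : 1 ≤ M) {q : ℝ} (h0 : 0 ≤ q) (hq : q ^ 2 * n ≤ 1)
    (B : Fin M → Finset U) (hB : ∀ j j', j ≠ j' → Disjoint (B j) (B j'))
    (hn : ∀ j, (B j).card ≤ n) (φ : Finset U → ℝ) (hφ : ∀ x, 0 ≤ φ x ∧ φ x ≤ 1) :
    𝔼 j, Ex (1 / 2) (fun x => Ex q fun G => φ (x ∪ G ∩ B j)) ≤
      Ex (1 / 2) φ + q * √(2 * n / M) := by
  have hM' : (0 : ℝ) < M := by exact_mod_cast hM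
  obtain ⟨L, hL⟩ : ∃ L : Fin M → Finset U → ℝ,
      L = fun j x => ∏ u ∈ B j, if u ∈ x then 1 + q else 1 - q := ⟨_, rfl⟩
  have hL1 : ∀ j, Ex (1 / 2) (L j) = 1 := fun j => by rw [hL]; exact sprinkle_aux_one q (B j)
  have hLL : ∀ j j', Ex (1 / 2) (fun x => (L j x - 1) * (L j' x - 1)) ≤
      if j = j' then 2 * q ^ 2 * n else 0 := by
    intro j j'
    rw [sprinkle_aux_cov _ _ (hL1 j) (hL1 j')]
    split_ifs with h
    · subst h
      rw [hL]
      simp only []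
      rw [sprinkle_aux_sq]
      exact sprinkle_aux_pow (hn j) hq
    · have e : (fun x => L j x * L j' x) =
          fun x => ∏ u ∈ B j ∪ B j', if u ∈ x then 1 + q else 1 - q := by
        funext x
        rw [prod_union (hB j j' h), hL]
      rw [e, sprinkle_aux_one, sub_self]
  have hD : Ex (1 / 2) (fun x => (∑ j, (L j x - 1)) ^ 2) ≤ M * (2 * q ^ 2 * n) := by
    have e : (fun x => (∑ j, (L j x - 1)) ^ 2) =
        fun x => ∑ j, ∑ j', (L j x - 1) * (L j' x - 1) := by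
      funext x
      rw [sq, sum_mul_sum]
    rw [e, Ex_sum]
    refine (sum_le_sum (g := fun _ => 2 * q ^ 2 * (n : ℝ)) fun j _ => ?_).trans (by simp)
    rw [Ex_sum]
    refine (sum_le_sum fun j' _ => hLL j j').trans ?_
    simp
  have hφ2 : Ex (1 / 2) (fun x => φ x ^ 2) ≤ 1 :=
    (Ex_mono (by norm_num) (by norm_num) fun x => by nlinarith [(hφ x).1, (hφ x).2]).trans
      (Ex_const (U := U) (1 / 2) 1).le
  have hD0 : 0 ≤ Ex (1 / 2) (fun x => (∑ j, (L j x - 1)) ^ 2) :=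
    (Ex_const (U := U) (1 / 2) 0).ge.trans
      (Ex_mono (by norm_num) (by norm_num) fun x => sq_nonneg _)
  have hcs := Ex_cs (ρ := 1 / 2) (by norm_num) (by norm_num) φ fun x => ∑ j, (L j x - 1)
  have hsq : Ex (1 / 2) (fun x => φ x * ∑ j, (L j x - 1)) ^ 2 ≤
      (M * (q * √(2 * n / M))) ^ 2 := by
    have e : (M * (q * √(2 * n / M))) ^ 2 = (M : ℝ) * (2 * q ^ 2 * n) := by
      rw [mul_pow, mul_pow, Real.sq_sqrt (by positivity)]
      field_simp
    rw [e]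
    exact hcs.trans ((mul_le_of_le_one_left hD0 hφ2).trans hD)
  have hle : Ex (1 / 2) (fun x => φ x * ∑ j, (L j x - 1)) ≤ M * (q * √(2 * n / M)) :=
    (abs_le_of_sq_le_sq' hsq (by positivity)).2
  have hsum : ∑ j, Ex (1 / 2) (fun x => Ex q fun G => φ (x ∪ G ∩ B j)) =
      M * Ex (1 / 2) φ + Ex (1 / 2) (fun x => φ x * ∑ j, (L j x - 1)) := by
    have e : (fun x => φ x * ∑ j, (L j x - 1)) = fun x => ∑ j, (φ x * L j x - φ x) := by
      funext x
      rw [mul_sum]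
      exact sum_congr rfl fun j _ => by ring
    rw [e, Ex_sum]
    simp only [Ex_sub, Ex_sprinkle, hL, sum_sub_distrib, sum_const, card_univ, Fintype.card_fin,
      nsmul_eq_mul]
    ring
  rw [expect_eq_sum_div_card, card_univ, Fintype.card_fin, hsum, div_le_iff₀ hM']
  nlinarith [hle]

end Pool.Agent.Lib.MP_8a52c3_lc.Avg
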