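import Pool.Agent.Lib.MP_8a52c3_lc.Avg.Approx
import Pool.Agent.Lib.MP_8a52c3_lc.Avg.Sprinkle
import Pool.Agent.Lib.MP_8a52c3_lc.Avg.Agree

/-! The covariance with a monotone circuit. -/

open Finset
open scoped BigOperators

namespace Pool.Agent.Lib.MP_8a52c3_lc.Avg

open Mono25 Pool.Agent.Lib.MP_8a52c3_lc.Neg

variable {U Q : Type} [Fintype U] [DecidableEq U] [Fintype Q]

/-- Planting a set in a random block is almost invisible to a small monotone circuit. -/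
theorem plant_le [Nonempty Q] {M k n l m S : ℕ} {P ρ : ℝ} {B : Fin M → Finset U}
    {K : Fin M → Q → Finset U} (H : Blk k (2 * l) n P B K) (hM : 1 ≤ M) (h0 : 0 < ρ)
    (h1 : m * ρ ≤ 1) (hm : 1 ≤ m) (hP : 0 < P) (hl1 : 1 ≤ l) (hl : 8 * l ≤ P * ρ)
    (hq : (m * ρ) ^ 2 * n ≤ 1) {g : Fin S → (U → Bool) → ℝ} (hg : Mon g) (v : Fin S) :
    𝔼 j, 𝔼 p, Ex (1 / 2) (fun x => ind (0 < g v (chi (x ∪ K j p)))) ≤
      Ex (1 / 2) (fun x => ind (0 < g v (chi x))) + (2 * (m * ρ * √(2 * n / M)) +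
        S * ((1 / 2) ^ l + 2 * (((Fintype.card U : ℝ) + 1) ^ l * (1 / 2) ^ m))) := by
  have : Nonempty (Fin M) := ⟨⟨0, hM⟩⟩
  have p0 : (0 : ℝ) ≤ 1 / 2 := by norm_num
  have p1 : (1 / 2 : ℝ) ≤ 1 := by norm_num
  have q0 : 0 ≤ m * ρ := by positivity
  obtain ⟨η, hη⟩ : ∃ η : ℝ,
    η = S * ((1 / 2) ^ l + 2 * (((Fintype.card U : ℝ) + 1) ^ l * (1 / 2) ^ m)) := ⟨_, rfl⟩
  have hη0 : 0 ≤ η := by rw [hη]; positivity
  have key : ∀ j x, 𝔼 p, ind (0 < g v (chi (x ∪ K j p))) ≤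
      2 * Ex (m * ρ) (fun G => ind (0 < g v (chi (x ∪ G ∩ B j)))) - ind (0 < g v (chi x)) + η := by
    intro j x
    by_cases hx : 0 < g v (chi x)
    · have e : (fun G => ind (0 < g v (chi (x ∪ G ∩ B j)))) = fun _ => (1 : ℝ) := funext fun G =>
        ind_true (hx.trans_le (hg.mono v _ _ (chi_le subset_union_left)))
      rw [e, Ex_const, ind_true hx]
      exact (Mono.ex_le fun p => ind_le_one _).trans (by linarith)
    · have hσ : Proj fun (z : U → Bool) (i : U) =>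
          decide (i ∈ x) || (decide (i ∈ B j) && z i) := fun i => by
        by_cases h2 : i ∈ x
        · exact Or.inl ⟨true, fun z => by simp [h2]⟩
        · by_cases h3 : i ∈ B j
          · exact Or.inr ⟨i, fun z => by simp [h2, h3]⟩
          · exact Or.inl ⟨false, fun z => by simp [h2, h3]⟩
      have e : ∀ y : Finset U, (fun i => decide (i ∈ x) || (decide (i ∈ B j) && chi y i)) =
          chi (x ∪ y ∩ B j) := fun y => funext fun i => by
        simp [chi, Bool.and_comm]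
      have h2 := approx h0 h1 hm hP hl1 hl (H.spr j) (hg.subst hσ) v
      simp only [e, inter_eq_left.2 (H.sub j _)] at h2
      rw [ind_false hx, sub_zero, hη]
      exact h2
  have h2 := sprinkle_le hM q0 hq B H.disj H.cardB (fun x => ind (0 < g v (chi x)))
    fun x => ⟨ind_nonneg _, ind_le_one _⟩
  have h3 : ∀ j, 𝔼 p, Ex (1 / 2) (fun x => ind (0 < g v (chi (x ∪ K j p)))) ≤
      2 * Ex (1 / 2) (fun x => Ex (m * ρ) fun G => ind (0 < g v (chi (x ∪ G ∩ B j)))) -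
        Ex (1 / 2) (fun x => ind (0 < g v (chi x))) + η := fun j => by
    rw [← Ex_expect]
    refine (Ex_mono p0 p1 (key j)).trans_eq ?_
    rw [Ex_add, Ex_sub, Ex_mul, Ex_const]
  refine (Mono.ex_mono h3).trans ?_
  rw [expect_add_distrib, expect_sub_distrib, ← mul_expect, Mono.ex_const, Mono.ex_const, ← hη]
  linarith

/-- The covariance is bounded by the effect of planting. -/
theorem cov_le [Nonempty Q] {M k : ℕ} {δ : ℝ} {K : Fin M → Q → Finset U} (hM : 1 ≤ M)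
    (hK : ∀ j p, (K j p).card = k) (hlam : M * (Fintype.card Q / 2 ^ k : ℝ) ≤ 1) (hδ : 0 ≤ δ)
    {h : Finset U → ℝ} (hh : Monotone h)
    (hD : 𝔼 j, 𝔼 p, Ex (1 / 2) (fun x => h (x ∪ K j p)) ≤ Ex (1 / 2) h + δ) :
    Ex (1 / 2) (fun x => h x * ind (∃ j p, K j p ⊆ x)) ≤
      Ex (1 / 2) h * Ex (1 / 2) (fun x => ind (∃ j p, K j p ⊆ x)) + δ := by
  have p0 : (0 : ℝ) ≤ 1 / 2 := by norm_num
  have p1 : (1 / 2 : ℝ) ≤ 1 := by norm_num
  have hm : Monotone fun x => ∑ j, ∑ p, ind (K j p ⊆ x) - ind (∃ j p, K j p ⊆ x) := by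
    intro x y hxy
    have h1 : ∑ j, ∑ p, ind (K j p ⊆ x) ≤ ∑ j, ∑ p, ind (K j p ⊆ y) :=
      sum_le_sum fun j _ => sum_le_sum fun p _ => ind_mono fun h => h.trans hxy
    by_cases h2 : ∃ j p, K j p ⊆ x
    · simp only [ind_true h2]
      linarith [ind_le_one (∃ j p, K j p ⊆ y)]
    · have h3 : ∑ j, ∑ p, ind (K j p ⊆ x) = 0 :=
        sum_eq_zero fun j _ => sum_eq_zero fun p _ => ind_false fun h => h2 ⟨j, p, h⟩
      simp only [ind_false h2, h3]
      by_cases h4 : ∃ j p, K j p ⊆ y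
      · obtain ⟨j, p, h5⟩ := h4
        have h6 := (single_le_sum (f := fun p => ind (K j p ⊆ y)) (fun _ _ => ind_nonneg _)
          (mem_univ p)).trans (single_le_sum (f := fun j => ∑ p, ind (K j p ⊆ y))
            (fun _ _ => sum_nonneg fun _ _ => ind_nonneg _) (mem_univ j))
        rw [ind_true h5] at h6
        linarith [ind_le_one (∃ j p, K j p ⊆ y)]
      · rw [ind_false h4]
        linarith
  have h1 := harris p0 p1 hh hm
  simp only [mul_sub, mul_sum] at h1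
  rw [Ex_sub, Ex_sub, Ex_sum, Ex_sum] at h1
  have e1 : ∀ j, Ex (1 / 2) (fun x => ∑ p, h x * ind (K j p ⊆ x)) =
      (1 / 2) ^ k * ∑ p, Ex (1 / 2) fun x => h (x ∪ K j p) := fun j => by
    rw [Ex_sum, mul_sum]
    exact sum_congr rfl fun p _ => by rw [Ex_plant, hK]
  have e2 : ∀ j, Ex (1 / 2) (fun x => ∑ p, ind (K j p ⊆ x)) =
      (1 / 2) ^ k * Fintype.card Q := fun j => by
    have e : ∀ p, Ex (1 / 2) (fun x => ind (K j p ⊆ x)) = (1 / 2) ^ k := fun p =>
      (ms_supset (1 / 2) (K j p)).trans (by rw [hK])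
    rw [Ex_sum]
    simp only [e]
    rw [sum_const, card_univ, nsmul_eq_mul, mul_comm]
  simp only [e1, e2] at h1
  rw [sum_const, card_univ, Fintype.card_fin, nsmul_eq_mul, ← mul_sum] at h1
  have hQ : (0 : ℝ) < Fintype.card Q := by exact_mod_cast Fintype.card_pos
  have hMR : (0 : ℝ) < M := by exact_mod_cast hM
  simp only [Mono.ex_eq_sum] at hD
  rw [← sum_div, Fintype.card_fin, div_div, div_le_iff₀ (by positivity)] at hD
  have h2 := mul_le_mul_of_nonneg_left hD (by positivity : (0 : ℝ) ≤ (1 / 2) ^ k)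
  have h3 : (1 / 2 : ℝ) ^ k * (Fintype.card Q * M) ≤ 1 := by
    rw [one_div_pow]
    refine le_trans (le_of_eq ?_) hlam
    ring
  nlinarith [mul_le_mul_of_nonneg_left h3 hδ]

end Pool.Agent.Lib.MP_8a52c3_lc.Avg
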