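import Pool.Agent.Lib.MP_8a52c3_lc.Mono25.Prob
import Pool.Agent.Lib.MP_8a52c3_lc.Neg.Cover

/-! Definitions for the correlation bound under the uniform distribution. -/

open Finset
open scoped BigOperators

namespace Pool.Agent.Lib.MP_8a52c3_lc.Avg

open Mono25

/-- The input word of a set. -/
def chi {ι : Type} [DecidableEq ι] (W : Finset ι) : ι → Bool := fun i => decide (i ∈ W)

/-- A monotone set function whose value is certified by at most `d` points. -/
def Loc {U : Type} (d : ℕ) (φ : Finset U → ℝ) : Prop :=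
  Monotone φ ∧ ∀ y, ∃ F ⊆ y, F.card ≤ d ∧ φ y ≤ φ F

/-- Sets of size at most `c` lie in a random member of the family with small probability. -/
def Spr {U Q : Type} [Fintype Q] (c : ℕ) (P : ℝ) (K : Q → Finset U) : Prop :=
  ∀ A : Finset U, A.card ≤ c → 𝔼 p, ind (A ⊆ K p) ≤ (1 / P) ^ A.card

/-- Disjoint blocks, each with a spread family of sets of size `k`. -/
structure Blk {ι Q : Type} [DecidableEq ι] [Fintype Q] {M : ℕ} (k c n : ℕ) (P : ℝ)
    (B : Fin M → Finset ι) (K : Fin M → Q → Finset ι) : Prop where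
  disj : ∀ j j', j ≠ j' → Disjoint (B j) (B j')
  cardB : ∀ j, (B j).card ≤ n
  sub : ∀ j p, K j p ⊆ B j
  cardK : ∀ j p, (K j p).card = k
  spr : ∀ j, Spr c P (K j)
  inter : ∀ j p p', p ≠ p' → (K j p ∩ K j p').card ≤ c

/-- The size parameter, cut off at `N`. -/
def sg (s : ℕ → ℕ) (N : ℕ) : ℕ := min (s N + Nat.log 2 N + 1) N

/-- Logarithm of the number of blocks. -/
def aa (s : ℕ → ℕ) (N : ℕ) : ℕ := Nat.log 2 (Nat.sqrt N / sg s N ^ 5)

/-- The prime. -/
def PP (s : ℕ → ℕ) (N : ℕ) : ℕ :=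
  Nat.findGreatest Nat.Prime (N / (2 ^ (aa s N + 1) * (3 * sg s N ^ 2)))

/-- The number of evaluation points. -/
def kk (s : ℕ → ℕ) (N : ℕ) : ℕ := aa s N + Nat.log 2 (PP s N ^ (2 * sg s N)) + 1

/-- The number of blocks. -/
def MM (s : ℕ → ℕ) (N : ℕ) : ℕ :=
  Nat.findGreatest
    (fun M => 2 ^ (kk s N * M) ≤ 2 * (2 ^ kk s N - PP s N ^ (2 * sg s N)) ^ M) N

end Pool.Agent.Lib.MP_8a52c3_lc.Avg
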