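import Pool.Agent.Lib.MP_8a52c3_lc.Avg.Defs
import Pool.Agent.Lib.MP_8a52c3_lc.Mono.Design

/-! Graphs of polynomials over a prime field, placed in blocks. -/

open Finset
open scoped BigOperators

namespace Pool.Agent.Lib.MP_8a52c3_lc.Avg

open Mono25

theorem design_getD {N : ℕ} (f : Fin N → Bool) (s : Fin N) :
    (List.ofFn f).getD s false = f s := by
  rw [List.getD_eq_getElem _ _ (by simp)]
  simp

theorem design_lt {N M k P : ℕ} [Fact P.Prime] (hN : M * (k * P) ≤ N) (j : Fin M) (i : Fin k)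
    (v : ZMod P) : (j * k + i) * P + v.val < N := by
  have h1 : v.val < P := ZMod.val_lt v
  have h2 : (j : ℕ) * k + i + 1 ≤ M * k := by
    have a1 : (j : ℕ) + 1 ≤ M := j.2
    have a2 : (i : ℕ) + 1 ≤ k := i.2
    calc (j : ℕ) * k + i + 1 ≤ j * k + k := by omega
      _ = (j + 1) * k := by ring
      _ ≤ M * k := Nat.mul_le_mul_right _ a1
  calc (j * k + i) * P + v.val < (j * k + i) * P + P := by omega
    _ = (j * k + i + 1) * P := by ring
    _ ≤ M * k * P := Nat.mul_le_mul_right _ h2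
    _ ≤ N := by rwa [mul_assoc]

/-- The position of the point `(i, v)` of block `j`. -/
def designPos {N M k P : ℕ} [Fact P.Prime] (hN : M * (k * P) ≤ N) (j : Fin M) (i : Fin k)
    (v : ZMod P) : Fin N := ⟨(j * k + i) * P + v.val, design_lt hN j i v⟩

theorem design_div {a a' b b' n : ℕ} (hb : b < n) (hb' : b' < n) (h : a * n + b = a' * n + b') :
    a = a' ∧ b = b' := by
  have h1 := congrArg (· % n) h
  simp only [Nat.mul_add_mod_of_lt hb, Nat.mul_add_mod_of_lt hb'] at h1
  subst h1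
  exact ⟨Nat.eq_of_mul_eq_mul_right (by omega) (Nat.add_right_cancel h), rfl⟩

theorem design_inj {N M k P : ℕ} [Fact P.Prime] (hN : M * (k * P) ≤ N) {j j' : Fin M}
    {i i' : Fin k} {v v' : ZMod P} (h : designPos hN j i v = designPos hN j' i' v') :
    j = j' ∧ i = i' ∧ v = v' := by
  obtain ⟨h1, h2⟩ := design_div (ZMod.val_lt v) (ZMod.val_lt v') (congrArg Fin.val h)
  obtain ⟨h3, h4⟩ := design_div i.2 i'.2 h1
  exact ⟨Fin.ext h3, Fin.ext h4, ZMod.val_injective P h2⟩

theorem design_cast {k P : ℕ} [Fact P.Prime] (hk : k ≤ P) :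
    Function.Injective fun t : Fin k => ((t : ℕ) : ZMod P) := fun _ _ h =>
  Mono.des_shift hk 0 (congrArg (fun x => (0 : ZMod P) + x) h)

theorem design_fix {c P : ℕ} [Fact P.Prime] (hc : c ≤ P) (T : Finset (ZMod P)) (hT : T.card ≤ c)
    (p₀ : Fin c → ZMod P) :
    𝔼 p : Fin c → ZMod P, ind (∀ u ∈ T, Mono.pev P c u p = Mono.pev P c u p₀) ≤
      (1 / (P : ℝ)) ^ T.card := by
  obtain ⟨T', hT1, -, hT2⟩ := exists_subsuperset_card_eq (subset_univ T) hT
    (by rwa [card_univ, ZMod.card])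
  obtain ⟨f, hf, hfT⟩ : ∃ f : Fin c → ZMod P, Function.Injective f ∧ ∀ u ∈ T, ∃ t, f t = u :=
    ⟨fun t => ((T'.equivFinOfCardEq hT2).symm t : ZMod P),
      Subtype.val_injective.comp (T'.equivFinOfCardEq hT2).symm.injective,
      fun u hu => ⟨T'.equivFinOfCardEq hT2 ⟨u, hT1 hu⟩, by simp⟩⟩
  have hb := Finite.injective_iff_bijective.1 (Mono.des_inj f hf)
  obtain ⟨g, hg⟩ : ∃ g : Fin c → ZMod P → ℝ,
      ∀ t v, g t v = if f t ∈ T then ind (v = Mono.pev P c (f t) p₀) else 1 := ⟨_, fun _ _ => rfl⟩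
  have h1 : ∀ p : Fin c → ZMod P, ind (∀ u ∈ T, Mono.pev P c u p = Mono.pev P c u p₀) ≤
      ∏ t, g t (Equiv.ofBijective _ hb p t) := by
    intro p
    by_cases h : ∀ u ∈ T, Mono.pev P c u p = Mono.pev P c u p₀
    · rw [ind_true h]
      refine (prod_eq_one fun t _ => ?_).ge
      rw [hg]
      split_ifs with ht
      · exact ind_true (h _ ht)
      · rfl
    · rw [ind_false h]
      refine prod_nonneg fun t _ => ?_
      rw [hg]
      split_ifs
      · exact ind_nonneg _
      · exact zero_le_one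
  have h2 : ∀ t, 𝔼 v, g t v = if f t ∈ T then 1 / (P : ℝ) else 1 := by
    intro t
    simp only [hg]
    split_ifs with ht
    · rw [Mono.ex_eq_sum, ZMod.card, sum_eq_single (Mono.pev P c (f t) p₀)
        (fun v _ hv => ind_false hv) (fun h => absurd (mem_univ _) h), ind_true rfl]
    · exact Mono.ex_const 1
  have h3 : (univ.filter fun t => f t ∈ T).card = T.card := by
    refine card_bij (fun t _ => f t) (fun t ht => (mem_filter.1 ht).2) (fun _ _ _ _ h => hf h)
      fun u hu => ?_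
    obtain ⟨t, rfl⟩ := hfT u hu
    exact ⟨t, mem_filter.2 ⟨mem_univ _, hu⟩, rfl⟩
  refine (Mono.ex_mono h1).trans_eq ?_
  rw [Mono.ex_equiv (Equiv.ofBijective _ hb) fun y : Fin c → ZMod P => ∏ t, g t (y t),
    Mono.ex_pi_prod g]
  simp only [h2]
  rw [prod_ite, prod_const_one, mul_one, prod_const, h3]

theorem design {N M k c P : ℕ} [Fact P.Prime] (hc : c ≤ P) (hk : k ≤ P) (hN : M * (k * P) ≤ N) :
    ∃ (B : Fin M → Finset (Fin N)) (K : Fin M → (Fin c → ZMod P) → Finset (Fin N)),
      Blk k c (k * P) P B K ∧ ∀ (j : Fin M) (p : Fin c → ZMod P) (W : Finset (Fin N)),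
        K j p ⊆ W ↔ ∀ i < k,
          (List.ofFn (chi W)).getD ((j * k + i) * P + (Mono.pev P c i p).val) false = true := by
  have hinj : ∀ (j : Fin M) (p : Fin c → ZMod P), Function.Injective
      fun i : Fin k => designPos hN j i (Mono.pev P c ((i : ℕ) : ZMod P) p) :=
    fun j p i i' h => (design_inj hN h).2.1
  refine ⟨fun j => univ.image fun x : Fin k × ZMod P => designPos hN j x.1 x.2,
    fun j p => univ.image fun i : Fin k => designPos hN j i (Mono.pev P c ((i : ℕ) : ZMod P) p),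
    ⟨fun j j' h => ?_, fun j => ?_, fun j p => ?_, fun j p => ?_, fun j A hA => ?_,
      fun j p p' h => ?_⟩, fun j p W => ?_⟩
  · rw [disjoint_left]
    intro n hn hn'
    obtain ⟨x, -, rfl⟩ := mem_image.1 hn
    obtain ⟨x', -, hx⟩ := mem_image.1 hn'
    exact h (design_inj hN hx).1.symm
  · refine card_image_le.trans_eq ?_
    rw [card_univ, Fintype.card_prod, Fintype.card_fin, ZMod.card]
  · intro n hn
    obtain ⟨i, -, rfl⟩ := mem_image.1 hn
    exact mem_image.2 ⟨(i, _), mem_univ _, rfl⟩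
  · rw [card_image_of_injective _ (hinj j p), card_univ, Fintype.card_fin]
  · by_cases h : ∃ p₀ : Fin c → ZMod P, A ⊆ univ.image fun i : Fin k =>
        designPos hN j i (Mono.pev P c ((i : ℕ) : ZMod P) p₀)
    · obtain ⟨p₀, h₀⟩ := h
      obtain ⟨I, -, rfl⟩ := subset_image_iff.1 h₀
      rw [card_image_of_injective _ (hinj j p₀)] at hA ⊢
      have h1 := design_fix hc (I.image fun t : Fin k => ((t : ℕ) : ZMod P))
        (card_image_le.trans hA) p₀
      rw [card_image_of_injective _ (design_cast hk)] at h1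
      refine (Mono.ex_mono fun p => ind_mono fun hp u hu => ?_).trans h1
      obtain ⟨t, ht, rfl⟩ := mem_image.1 hu
      obtain ⟨i, -, hi⟩ := mem_image.1 (hp (mem_image_of_mem _ ht))
      obtain ⟨-, rfl, h2⟩ := design_inj hN hi
      exact h2
    · exact Mono.ex_le fun p => (ind_false fun hp => h ⟨p, hp⟩).trans_le (by positivity)
  · refine le_trans ?_ (Mono.des_card p p' h)
    have h1 : ((univ.image fun i : Fin k =>
          designPos hN j i (Mono.pev P c ((i : ℕ) : ZMod P) p)) ∩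
        univ.image fun i : Fin k => designPos hN j i (Mono.pev P c ((i : ℕ) : ZMod P) p')) ⊆
        (univ.filter fun i : Fin k => Mono.pev P c ((i : ℕ) : ZMod P) p =
          Mono.pev P c ((i : ℕ) : ZMod P) p').image
          fun i : Fin k => designPos hN j i (Mono.pev P c ((i : ℕ) : ZMod P) p) := by
      intro n hn
      obtain ⟨i, -, rfl⟩ := mem_image.1 (mem_inter.1 hn).1
      obtain ⟨i', -, hi⟩ := mem_image.1 (mem_inter.1 hn).2
      obtain ⟨-, rfl, h2⟩ := design_inj hN hi
      exact mem_image_of_mem _ (mem_filter.2 ⟨mem_univ _, h2.symm⟩)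
    refine (card_le_card h1).trans (card_image_le.trans ?_)
    exact card_le_card_of_injOn (fun t : Fin k => ((t : ℕ) : ZMod P))
      (fun t ht => mem_coe.2 (mem_filter.2 ⟨mem_univ _, (mem_filter.1 (mem_coe.1 ht)).2⟩))
      (design_cast hk).injOn
  · rw [image_subset_iff]
    have h1 : ∀ i : Fin k, (List.ofFn (chi W)).getD
        ((j * k + i) * P + (Mono.pev P c ((i : ℕ) : ZMod P) p).val) false = true ↔
        designPos hN j i (Mono.pev P c ((i : ℕ) : ZMod P) p) ∈ W := fun i =>
      (design_getD (chi W) (designPos hN j i _)).symm ▸ decide_eq_true_iff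
    exact ⟨fun h i hi => (h1 ⟨i, hi⟩).2 (h _ (mem_univ _)), fun h i _ => (h1 i).1 (h i i.2)⟩

end Pool.Agent.Lib.MP_8a52c3_lc.Avg
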