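import Pool.Agent.Lib.MP_8a52c3_lc.Mono.Design
import Pool.Agent.Shared.PolyTime.Extra

/-! The language: some block contains the graph of a polynomial of low degree. -/

open Finset
open scoped BigOperators

namespace Pool.Agent.Lib.MP_8a52c3_lc.Avg

open N68a2faeb

open Pool.Agent.Shared.PolyTime N487b59b3

/-- The value of the polynomial given by the witness. -/
def langVal (c P n : ℕ) (x : List ℕ) (i : ℕ) : ℕ :=
  ((List.range n).map fun t => if t < c then i ^ min t n * x.getD (t + 1) 0 else 0).sum % P

/-- The conditions tested by the verifier, with the parameters as arguments. -/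
def langVer (M k c P : ℕ) (w : List Bool) (x : List ℕ) : Prop :=
  x.getD 0 0 < M ∧ ∀ i < w.length, i < k →
    w.getD ((x.getD 0 0 * k + i) * P + langVal c P w.length x i) false = true

open Classical in
theorem lang_pt_ver : IsPolyTime (fun z : (ℕ × ℕ × ℕ × ℕ) × List Bool × List ℕ =>
    decide (langVer z.1.1 z.1.2.1 z.1.2.2.1 z.1.2.2.2 z.2.1 z.2.2)) := by
  unfold langVer langVal
  fun_prop

theorem lang_val {c P n : ℕ} (hP : 0 < P) (hc : c ≤ n) (x : List ℕ) (i : ℕ) :
    langVal c P n x i = (Mono.pev P c i fun t => (x.getD (t + 1) 0 : ℕ)).val := by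
  have : NeZero P := ⟨hP.ne'⟩
  have e : ((List.range n).map fun t => if t < c then i ^ min t n * x.getD (t + 1) 0 else 0).sum =
      ∑ t : Fin c, i ^ (t : ℕ) * x.getD (t + 1) 0 := by
    rw [← Finset.sum_range fun t => i ^ t * x.getD (t + 1) 0]
    change ∑ t ∈ range n, _ = _
    rw [← sum_subset (range_subset_range.2 hc) fun t _ ht => if_neg (by simpa using ht)]
    refine sum_congr rfl fun t ht => ?_
    have := mem_range.1 ht
    rw [if_pos this, min_eq_left (by omega)]
  rw [langVal, e, ← ZMod.val_natCast, Mono.pev]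
  push_cast
  rfl

theorem lang_getD {N : ℕ} {x y : Fin N → Bool} (h : ∀ i, x i = true → y i = true) (s : ℕ)
    (hs : (List.ofFn x).getD s false = true) : (List.ofFn y).getD s false = true := by
  by_cases h1 : s < N
  · simp only [List.getD_eq_getElem?_getD, List.getElem?_ofFn, h1, dite_true, Option.getD_some]
      at hs ⊢
    exact h _ hs
  · simp [List.getD_eq_getElem?_getD, h1] at hs

theorem lang_exists {M k c P : ℕ → ℕ} (hM : IsPolyTime fun w : List Bool => M w.length)
    (hk : IsPolyTime fun w : List Bool => k w.length)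
    (hc : IsPolyTime fun w : List Bool => c w.length)
    (hP : IsPolyTime fun w : List Bool => P w.length) :
    ∃ L ∈ NP, (∀ (N : ℕ) (x y : Fin N → Bool), (∀ i, x i = true → y i = true) →
        L (List.ofFn x) = true → L (List.ofFn y) = true) ∧
      ∀ N, 0 < P N → P N ≤ N → M N ≤ N → k N ≤ N → c N ≤ N → ∀ x : Fin N → Bool,
        L (List.ofFn x) = true ↔ ∃ (j : Fin (M N)) (p : Fin (c N) → ZMod (P N)), ∀ i < k N,
          (List.ofFn x).getD ((j * k N + i) * P N + (Mono.pev (P N) (c N) i p).val) false =
            true := by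
  classical
  let R : List Bool × List Bool → Bool := fun z => (bitDecode z.2 : Option (List ℕ)).any fun x =>
    decide (langVer (M z.1.length) (k z.1.length) (c z.1.length) (P z.1.length) z.1 x)
  have hR : IsPolyTime R := by
    refine IsPolyTime.optionAny (by fun_prop) ?_
    have hl : IsPolyTime fun z : (List Bool × List Bool) × List ℕ => z.1.1 := by fun_prop
    exact lang_pt_ver.comp (g := fun z : (List Bool × List Bool) × List ℕ =>
      ((M z.1.1.length, k z.1.1.length, c z.1.1.length, P z.1.1.length), z.1.1, z.2))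
      (((hM.comp hl).pair ((hk.comp hl).pair ((hc.comp hl).pair (hP.comp hl)))).pair
        (hl.pair (by fun_prop)))
  let L : List Bool → Bool := fun w =>
    decide (∃ y : List Bool, y.length ≤ (w.length + 1) * (2 * w.length + 1) ∧ R (w, y) = true)
  have hL : ∀ w, L w = true ↔ ∃ y : List Bool, y.length ≤ (w.length + 1) * (2 * w.length + 1) ∧
      ∃ x : List ℕ, bitDecode y = some x ∧
        langVer (M w.length) (k w.length) (c w.length) (P w.length) w x := fun w => by
    simp [L, R, Option.any_eq_true]
  refine ⟨L, ⟨(Polynomial.X + 1) * (2 * Polynomial.X + 1), R, hR, fun w => by simp [L]⟩,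
    fun N x y hxy h => ?_, fun N h0 h1 h2 h3 h4 x => ?_⟩
  · rw [hL] at h ⊢
    simp only [langVer, List.length_ofFn] at h ⊢
    obtain ⟨u, a1, z, a2, a3, a4⟩ := h
    exact ⟨u, a1, z, a2, a3, fun i hi hi' => lang_getD hxy _ (a4 i hi hi')⟩
  · rw [hL]
    simp only [langVer, List.length_ofFn, lang_val h0 h4]
    constructor
    · rintro ⟨-, -, z, -, a3, a4⟩
      exact ⟨⟨_, a3⟩, _, fun i hi => a4 i (hi.trans_le h3) hi⟩
    · rintro ⟨j, p, hp⟩
      have : NeZero (P N) := ⟨h0.ne'⟩
      refine ⟨bitEncode ((j : ℕ) :: List.ofFn fun t => (p t).val), ?_,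
        (j : ℕ) :: List.ofFn fun t => (p t).val, by simp, j.2, fun i _ hi => ?_⟩
      · refine le_trans (bsize_list_le _ N fun a ha => (bsize_nat_le_self _).trans ?_) ?_
        · rcases List.mem_cons.1 ha with rfl | ha
          · exact j.2.le.trans h2
          · obtain ⟨t, rfl⟩ := List.mem_ofFn.1 ha
            exact (ZMod.val_lt _).le.trans h1
        · rw [List.length_cons, List.length_ofFn]
          exact Nat.mul_le_mul_right _ (by omega)
      · have e : (fun t : Fin (c N) => ((((j : ℕ) :: List.ofFn fun t => (p t).val).getD (t + 1) 0 : ℕ) :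
            ZMod (P N))) = p := funext fun t => by
          rw [List.getD_cons_succ, List.getD_eq_getElem _ _ (by simp)]
          simp
        rw [e]
        exact hp i hi

end Pool.Agent.Lib.MP_8a52c3_lc.Avg
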