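import Pool.Agent.Lib.MP_8a52c3_lc.Avg.Defs
import Pool.Agent.Shared.PolyTime.Extra

/-! The parameters are computable in polynomial time. -/

namespace Pool.Agent.Lib.MP_8a52c3_lc.Avg

open N68a2faeb Pool.Agent.Shared.PolyTime

theorem parP_fg_congr {P Q : ℕ → Prop} [DecidablePred P] [DecidablePred Q] (n : ℕ)
    (h : ∀ m ≤ n, P m ↔ Q m) : Nat.findGreatest P n = Nat.findGreatest Q n := by
  induction n with
  | zero => rfl
  | succ n ih =>
    rw [Nat.findGreatest_succ, Nat.findGreatest_succ, ih fun m hm => h m (Nat.le_succ_of_le hm)]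
    exact if_congr (h _ le_rfl) rfl rfl

theorem parP_prime {m N : ℕ} (h : m ≤ N) :
    (2 ≤ m ∧ ∀ d < N + 1, d ∣ m → d = 1 ∨ d = m) ↔ m.Prime := by
  rw [Nat.prime_def]
  refine and_congr_right fun h2 => ⟨fun H d hd => H d ?_ hd, fun H d _ hd => H d hd⟩
  have := Nat.le_of_dvd (by omega) hd
  omega

theorem par_pt {s : ℕ → ℕ} (hs : IsPolyTime fun w : List Bool => s w.length) :
    (IsPolyTime fun w : List Bool => MM s w.length) ∧
    (IsPolyTime fun w : List Bool => kk s w.length) ∧
    (IsPolyTime fun w : List Bool => 2 * sg s w.length) ∧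
    (IsPolyTime fun w : List Bool => PP s w.length) := by
  have hN : IsPolyTime fun w : List Bool => w.length := IsPolyTime.id'.length
  have bN : PolyBdd fun w : List Bool => w.length := PolyBdd.length IsPolyTime.id'
  have hsg : IsPolyTime fun w : List Bool => sg s w.length :=
    ((hs.add ((IsPolyTime.const 2).log hN)).add (IsPolyTime.const 1)).nat_min hN
  have bsg : PolyBdd fun w : List Bool => sg s w.length := PolyBdd.min_right _ bN
  have hq : IsPolyTime fun w : List Bool => Nat.sqrt w.length / sg s w.length ^ 5 :=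
    hN.sqrt.div (hsg.pow (IsPolyTime.const 5) (PolyBdd.const 5))
  have haa : IsPolyTime fun w : List Bool => aa s w.length := (IsPolyTime.const 2).log hq
  have baa : PolyBdd fun w : List Bool => aa s w.length := PolyBdd.log (fun _ => 2) hq
  have h2 : IsPolyTime fun w : List Bool => 2 * sg s w.length := (IsPolyTime.const 2).mul hsg
  have b2 : PolyBdd fun w : List Bool => 2 * sg s w.length := (PolyBdd.const 2).mul bsg
  have hP0 : IsPolyTime fun w : List Bool =>
      w.length / (2 ^ (aa s w.length + 1) * (3 * sg s w.length ^ 2)) :=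
    hN.div (((IsPolyTime.const 2).pow (haa.add (IsPolyTime.const 1))
      (baa.add (PolyBdd.const 1))).mul ((IsPolyTime.const 3).mul
        (hsg.pow (IsPolyTime.const 2) (PolyBdd.const 2))))
  have hPP : IsPolyTime fun w : List Bool => PP s w.length := by
    refine (IsPolyTime.findGreatest
      (P := fun (w : List Bool) m => 2 ≤ m ∧ ∀ d < w.length + 1, d ∣ m → d = 1 ∨ d = m)
      (inst := fun _ => inferInstance) (by fun_prop) hP0 (bN.div _)).of_eq fun w => ?_
    exact parP_fg_congr _ fun m hm => parP_prime (hm.trans (Nat.div_le_self _ _))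
  have hPc : IsPolyTime fun w : List Bool => PP s w.length ^ (2 * sg s w.length) :=
    hPP.pow h2 b2
  have hkk : IsPolyTime fun w : List Bool => kk s w.length :=
    (haa.add ((IsPolyTime.const 2).log hPc)).add (IsPolyTime.const 1)
  have bkk : PolyBdd fun w : List Bool => kk s w.length :=
    (baa.add (PolyBdd.log (fun _ => 2) hPc)).add (PolyBdd.const 1)
  refine ⟨?_, hkk, h2, hPP⟩
  have hD : IsPolyTime fun w : List Bool =>
      2 ^ kk s w.length - PP s w.length ^ (2 * sg s w.length) :=
    ((IsPolyTime.const 2).pow hkk bkk).sub hPc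
  have hf : IsPolyTime fun y : List Bool × ℕ => y.1 := IsPolyTime.id'.fst
  have hm : IsPolyTime fun y : List Bool × ℕ => min y.2 y.1.length :=
    IsPolyTime.id'.snd.nat_min hf.length
  have bm : PolyBdd fun y : List Bool × ℕ => min y.2 y.1.length :=
    PolyBdd.min_right _ (PolyBdd.length hf)
  refine (IsPolyTime.findGreatest
    (P := fun (w : List Bool) M => 2 ^ (kk s w.length * min M w.length) ≤
      2 * (2 ^ kk s w.length - PP s w.length ^ (2 * sg s w.length)) ^ min M w.length)
    (inst := fun _ => inferInstance)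
    (IsPolyTime.decide_nat_le
      ((IsPolyTime.const 2).pow ((hkk.comp hf).mul hm) ((bkk.comp hf).mul bm))
      ((IsPolyTime.const 2).mul ((hD.comp hf).pow hm bm))) hN bN).of_eq fun w => ?_
  exact parP_fg_congr _ fun m hm => by rw [min_eq_left hm]

end Pool.Agent.Lib.MP_8a52c3_lc.Avg
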