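import Pool.Agent.Lib.MP_8a52c3_lc.Avg.Defs

/-! Arithmetic of the parameters. -/

namespace Pool.Agent.Lib.MP_8a52c3_lc.Avg

/-- Facts on natural numbers. -/
theorem par_nat {s : ℕ → ℕ} {N σ a P k M : ℕ} (hσ : σ = s N + Nat.log 2 N + 1)
    (h : (10 ^ 5 * σ ^ 5) ^ 2 ≤ N) (ha : a = aa s N) (hP : P = PP s N) (hk : k = kk s N)
    (hM : M = MM s N) :
    sg s N = σ ∧ P.Prime ∧ 4000 * σ ^ 8 ≤ P ∧ P ≤ N ∧ k ≤ 3 * σ ^ 2 ∧ N < (2 ^ (a + 1) * σ ^ 5) ^ 2 ∧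
      N ≤ 24 * 2 ^ a * σ ^ 2 * P ∧ 2 ^ (a + 1) * (3 * σ ^ 2 * P) ≤ N ∧ 1 ≤ a ∧
      2 ^ k ≤ 2 ^ (a + 1) * P ^ (2 * σ) ∧ 2 ^ a * P ^ (2 * σ) < 2 ^ k ∧
      2 ^ (k * M) ≤ 2 * (2 ^ k - P ^ (2 * σ)) ^ M ∧
      (M < N → 2 * (2 ^ k - P ^ (2 * σ)) ^ (M + 1) < 2 ^ (k * (M + 1))) := by
  have hσ1 : 1 ≤ σ := by omega
  have h5 : 0 < σ ^ 5 := by positivity
  have hσN : σ ≤ N := by
    calc σ ≤ σ ^ 5 := Nat.le_self_pow (by norm_num) σ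
      _ ≤ 10 ^ 5 * σ ^ 5 := Nat.le_mul_of_pos_left _ (by norm_num)
      _ ≤ (10 ^ 5 * σ ^ 5) ^ 2 := Nat.le_self_pow (by norm_num) _
      _ ≤ N := h
  have hsg : sg s N = σ := by
    unfold sg
    rw [← hσ]
    exact min_eq_left hσN
  have hR : 10 ^ 5 ≤ Nat.sqrt N / σ ^ 5 := (Nat.le_div_iff_mul_le h5).2 (Nat.le_sqrt'.2 h)
  have ha' : a = Nat.log 2 (Nat.sqrt N / σ ^ 5) := by rw [ha, aa, hsg]
  have r1 : 2 ^ a ≤ Nat.sqrt N / σ ^ 5 := by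
    rw [ha']
    exact Nat.pow_log_le_self 2 (by omega)
  have r2 : Nat.sqrt N / σ ^ 5 < 2 ^ (a + 1) := by
    rw [ha']
    exact Nat.lt_pow_succ_log_self (by norm_num) _
  have r3 : 50000 < 2 ^ a := by
    have := hR.trans_lt r2
    rw [pow_succ 2 a] at this
    omega
  have r4 : N < (2 ^ (a + 1) * σ ^ 5) ^ 2 := Nat.sqrt_lt'.1 ((Nat.div_lt_iff_lt_mul h5).1 r2)
  have r5 : (2 ^ a * σ ^ 5) ^ 2 ≤ N := Nat.le_sqrt'.1 ((Nat.le_div_iff_mul_le h5).1 r1)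
  have hN : N < 2 ^ σ :=
    lt_of_lt_of_le (Nat.lt_pow_succ_log_self (b := 2) (by norm_num) N)
      (Nat.pow_le_pow_right (by norm_num) (by omega))
  have r6 : a < σ := by
    refine (Nat.pow_lt_pow_iff_right (a := 2) (by norm_num)).1 ?_
    exact lt_of_le_of_lt (r1.trans ((Nat.div_le_self _ _).trans (Nat.sqrt_le_self N))) hN
  set D := 2 ^ (a + 1) * (3 * σ ^ 2) with hD
  have hD0 : 0 < D := by positivity
  have hP' : P = Nat.findGreatest Nat.Prime (N / D) := by rw [hP, PP, ← ha, hsg]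
  have q1 : 8000 * σ ^ 8 ≤ N / D := by
    refine (Nat.le_div_iff_mul_le hD0).2 (le_trans ?_ r5)
    calc 8000 * σ ^ 8 * D = 48000 * (2 ^ a * σ ^ 10) := by rw [hD]; ring
      _ ≤ 2 ^ a * (2 ^ a * σ ^ 10) := Nat.mul_le_mul_right _ (by omega)
      _ = (2 ^ a * σ ^ 5) ^ 2 := by ring
  have h8 : 0 < σ ^ 8 := by positivity
  obtain ⟨p, hp, p1, p2⟩ := Nat.exists_prime_lt_and_le_two_mul (N / D / 2) (by omega)
  have p3 : p ≤ N / D := by omega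
  have p4 : p ≤ P := by
    rw [hP']
    exact Nat.le_findGreatest p3 hp
  have p5 : P.Prime := by
    rw [hP']
    exact Nat.findGreatest_spec p3 hp
  have p6 : P ≤ N / D := by
    rw [hP']
    exact Nat.findGreatest_le _
  have p7 : P ≤ N := p6.trans (Nat.div_le_self _ _)
  have p8 : N / D + 1 ≤ 2 * P := by omega
  have hX : P ^ (2 * σ) ≠ 0 := pow_ne_zero _ p5.ne_zero
  have hk' : k = a + Nat.log 2 (P ^ (2 * σ)) + 1 := by rw [hk, kk, ← ha, ← hP, hsg]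
  have k1 : Nat.log 2 (P ^ (2 * σ)) < 2 * σ ^ 2 := by
    refine Nat.log_lt_of_lt_pow hX ?_
    calc P ^ (2 * σ) < (2 ^ σ) ^ (2 * σ) := Nat.pow_lt_pow_left (p7.trans_lt hN) (by omega)
      _ = 2 ^ (2 * σ ^ 2) := by rw [← pow_mul]; congr 1; ring
  have k2 : σ ≤ σ ^ 2 := Nat.le_self_pow (by norm_num) σ
  have hM' : M = Nat.findGreatest (fun M => 2 ^ (k * M) ≤ 2 * (2 ^ k - P ^ (2 * σ)) ^ M) N := by
    rw [hM, MM, ← hk, ← hP, hsg]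
  refine ⟨hsg, p5, by omega, p7, by omega, r4, ?_, ?_, ?_, ?_, ?_, ?_, fun hMN => ?_⟩
  · calc N ≤ D * (N / D + 1) := (Nat.lt_mul_div_succ N hD0).le
      _ ≤ D * (2 * P) := Nat.mul_le_mul_left _ p8
      _ = 12 * (2 ^ a * σ ^ 2 * P) := by rw [hD]; ring
      _ ≤ 24 * (2 ^ a * σ ^ 2 * P) := Nat.mul_le_mul_right _ (by norm_num)
      _ = 24 * 2 ^ a * σ ^ 2 * P := by ring
  · calc 2 ^ (a + 1) * (3 * σ ^ 2 * P) = D * P := by rw [hD]; ring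
      _ ≤ D * (N / D) := Nat.mul_le_mul_left _ p6
      _ ≤ N := Nat.mul_div_le _ _
  · rcases Nat.eq_zero_or_pos a with e | e
    · rw [e] at r3
      norm_num at r3
    · exact e
  · calc 2 ^ k = 2 ^ (a + 1) * 2 ^ Nat.log 2 (P ^ (2 * σ)) := by rw [hk']; ring
      _ ≤ _ := Nat.mul_le_mul_left _ (Nat.pow_log_le_self 2 hX)
  · calc 2 ^ a * P ^ (2 * σ) < 2 ^ a * 2 ^ (Nat.log 2 (P ^ (2 * σ)) + 1) :=
          Nat.mul_lt_mul_of_pos_left (Nat.lt_pow_succ_log_self (by norm_num) _) (by positivity)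
      _ = 2 ^ k := by rw [hk']; ring
  · have := Nat.findGreatest_spec
      (P := fun M => 2 ^ (k * M) ≤ 2 * (2 ^ k - P ^ (2 * σ)) ^ M) (Nat.zero_le N) (by simp)
    rwa [← hM'] at this
  · have := Nat.findGreatest_is_greatest
      (P := fun M => 2 ^ (k * M) ≤ 2 * (2 ^ k - P ^ (2 * σ)) ^ M) (n := N) (k := M + 1)
      (by rw [← hM']; omega) hMN
    exact not_le.1 this

/-- Facts on real numbers. -/
theorem par_real {N σ a P k M : ℕ} {lam : ℝ} (hσ : 1 ≤ σ) (h1 : 4000 * σ ^ 8 ≤ P)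
    (h2 : k ≤ 3 * σ ^ 2) (h3 : N < (2 ^ (a + 1) * σ ^ 5) ^ 2) (h4 : N ≤ 24 * 2 ^ a * σ ^ 2 * P)
    (h5 : 2 ^ (a + 1) * (3 * σ ^ 2 * P) ≤ N) (h6 : 1 ≤ a)
    (h7 : 2 ^ k ≤ 2 ^ (a + 1) * P ^ (2 * σ)) (h8 : 2 ^ a * P ^ (2 * σ) < 2 ^ k)
    (h9 : 2 ^ (k * M) ≤ 2 * (2 ^ k - P ^ (2 * σ)) ^ M)
    (h10 : M < N → 2 * (2 ^ k - P ^ (2 * σ)) ^ (M + 1) < 2 ^ (k * (M + 1)))
    (hlam : lam = (P : ℝ) ^ (2 * σ) / 2 ^ k) :
    1 ≤ M ∧ M ≤ N ∧ M * (k * P) ≤ N ∧ lam ≤ 1 / 2 ∧ M * lam ≤ 1 ∧ 1 / 2 ≤ (1 - lam) ^ M ∧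
      (1 - lam) ^ (M + 1) < 1 / 2 ∧ lam ≤ 2 * (σ ^ 5 / √N) ∧
      ((2 * σ ^ 2 : ℕ) : ℝ) * (8 * σ / P) ≤ 1 ∧
      (((2 * σ ^ 2 : ℕ) : ℝ) * (8 * σ / P)) ^ 2 * ((k * P : ℕ) : ℝ) ≤ 1 ∧
      ((2 * σ ^ 2 : ℕ) : ℝ) * (8 * σ / P) * √(2 * ((k * P : ℕ) : ℝ) / M) ≤
        272 * (σ ^ 5 / √N) := by
  have h80 : 0 < σ ^ 8 := by positivity
  have hP : 0 < P := by omega
  have hPr : (0 : ℝ) < P := by exact_mod_cast hP
  have hσr : (1 : ℝ) ≤ σ := by exact_mod_cast hσ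
  have hK : (0 : ℝ) < 2 ^ k := by positivity
  have hXle : P ^ (2 * σ) ≤ 2 ^ k :=
    le_trans (Nat.le_mul_of_pos_left _ (by positivity)) h8.le
  obtain ⟨b, rfl⟩ : ∃ b, a = b + 1 := ⟨a - 1, by omega⟩
  have hB : (1 : ℝ) ≤ 2 ^ b := one_le_pow₀ (by norm_num)
  have l0 : 0 < lam := by rw [hlam]; positivity
  have l1 : 2 * 2 ^ b * lam < 1 := by
    have e : ((2 : ℝ) ^ (b + 1)) * (P : ℝ) ^ (2 * σ) < 2 ^ k := by exact_mod_cast h8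
    rw [hlam, ← mul_div_assoc, div_lt_one hK]
    rwa [pow_succ'] at e
  have l2 : 1 ≤ 4 * 2 ^ b * lam := by
    have e : (2 : ℝ) ^ k ≤ 2 ^ (b + 1 + 1) * (P : ℝ) ^ (2 * σ) := by exact_mod_cast h7
    rw [hlam, ← mul_div_assoc, one_le_div hK]
    calc (2 : ℝ) ^ k ≤ _ := e
      _ = _ := by ring
  have l3 : lam ≤ 1 / 2 := by nlinarith
  have e1 : 1 - lam = ((2 ^ k - P ^ (2 * σ) : ℕ) : ℝ) / 2 ^ k := by
    rw [Nat.cast_sub hXle, hlam]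
    push_cast
    field_simp
  have l4 : 1 / 2 ≤ (1 - lam) ^ M := by
    have e : (2 : ℝ) ^ (k * M) ≤ 2 * ((2 ^ k - P ^ (2 * σ) : ℕ) : ℝ) ^ M := by exact_mod_cast h9
    rw [e1, div_pow, ← pow_mul, le_div_iff₀ (by positivity)]
    linarith
  have l5 : M * lam ≤ 1 := by
    have e2 := one_add_mul_le_pow (a := lam) (by linarith) M
    have e3 : (1 + lam) ^ M * (1 - lam) ^ M ≤ 1 := by
      rw [← mul_pow]
      exact pow_le_one₀ (by nlinarith) (by nlinarith)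
    have e4 : (0 : ℝ) ≤ (1 + lam) ^ M := by positivity
    nlinarith
  have m1 : M ≤ 2 ^ (b + 1 + 1) := by
    have e : (M : ℝ) ≤ 4 * 2 ^ b := le_of_mul_le_mul_right (l5.trans l2) l0
    have e' : (M : ℝ) ≤ 2 ^ (b + 1 + 1) := by
      calc (M : ℝ) ≤ _ := e
        _ = _ := by ring
    exact_mod_cast e'
  have h20 : 0 < σ ^ 2 := by positivity
  have m2 : M < N := by
    have e : 2 ≤ 3 * σ ^ 2 * P := by nlinarith
    have e' : 0 < 2 ^ (b + 1 + 1) := by positivity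
    nlinarith
  have l6 : (1 - lam) ^ (M + 1) < 1 / 2 := by
    have e : 2 * ((2 ^ k - P ^ (2 * σ) : ℕ) : ℝ) ^ (M + 1) < (2 : ℝ) ^ (k * (M + 1)) := by
      exact_mod_cast h10 m2
    rw [e1, div_pow, ← pow_mul, div_lt_iff₀ (by positivity)]
    linarith
  have m3 : 2 ^ b ≤ M := by
    have e2 := one_add_mul_le_pow (a := -lam) (by linarith) (M + 1)
    rw [← sub_eq_add_neg] at e2
    have e3 : (2 : ℝ) ^ b * lam < ((M + 1 : ℕ) : ℝ) * lam := by linarith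
    have e4 : (2 : ℝ) ^ b < ((M + 1 : ℕ) : ℝ) := lt_of_mul_lt_mul_right e3 l0.le
    have e5 : 2 ^ b < M + 1 := by exact_mod_cast e4
    omega
  have m4 : 1 ≤ M := le_trans Nat.one_le_two_pow m3
  have hNr : (0 : ℝ) < N := by exact_mod_cast (by omega : 0 < N)
  have hs : 0 < √(N : ℝ) := Real.sqrt_pos.2 hNr
  have h1r : 4000 * (σ : ℝ) ^ 8 ≤ P := by exact_mod_cast h1
  have h2r : (k : ℝ) ≤ 3 * σ ^ 2 := by exact_mod_cast h2
  have hMr : (0 : ℝ) < M := by exact_mod_cast m4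
  have hq : ((2 * σ ^ 2 : ℕ) : ℝ) * (8 * σ / P) = 16 * σ ^ 3 / P := by
    push_cast
    ring
  have hq2 : (16 * (σ : ℝ) ^ 3 / P) ^ 2 * ((k * P : ℕ) : ℝ) ≤ 768 * σ ^ 8 / P := by
    have e : (16 * (σ : ℝ) ^ 3 / P) ^ 2 * ((k * P : ℕ) : ℝ) = 256 * σ ^ 6 * k / P := by
      push_cast
      field_simp
      ring
    rw [e]
    refine div_le_div_of_nonneg_right ?_ hPr.le
    calc 256 * (σ : ℝ) ^ 6 * k ≤ 256 * σ ^ 6 * (3 * σ ^ 2) :=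
          mul_le_mul_of_nonneg_left h2r (by positivity)
      _ = _ := by ring
  refine ⟨m4, m2.le, ?_, l3, l5, l4, l6, ?_, ?_, ?_, ?_⟩
  · exact le_trans (Nat.mul_le_mul m1 (Nat.mul_le_mul_right _ h2)) h5
  · have e : √(N : ℝ) ≤ 4 * 2 ^ b * σ ^ 5 := by
      refine Real.sqrt_le_iff.2 ⟨by positivity, ?_⟩
      have e' : (N : ℝ) ≤ (2 ^ (b + 1 + 1) * σ ^ 5) ^ 2 := by exact_mod_cast h3.le
      calc (N : ℝ) ≤ _ := e'
        _ = _ := by ring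
    rw [← mul_div_assoc, le_div_iff₀ hs]
    calc lam * √(N : ℝ) ≤ lam * (4 * 2 ^ b * σ ^ 5) := mul_le_mul_of_nonneg_left e l0.le
      _ = (2 * 2 ^ b * lam) * (2 * σ ^ 5) := by ring
      _ ≤ 1 * (2 * σ ^ 5) := mul_le_mul_of_nonneg_right l1.le (by positivity)
      _ = _ := one_mul _
  · rw [hq, div_le_one hPr]
    have e : (σ : ℝ) ^ 3 ≤ σ ^ 8 := pow_le_pow_right₀ hσr (by norm_num)
    have e' : (0 : ℝ) ≤ σ ^ 8 := by positivity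
    linarith
  · rw [hq]
    refine hq2.trans ?_
    rw [div_le_one hPr]
    have e' : (0 : ℝ) ≤ σ ^ 8 := by positivity
    linarith
  · rw [hq]
    refine (sq_le_sq₀ (by positivity) (by positivity)).1 ?_
    rw [mul_pow, Real.sq_sqrt (by positivity), mul_pow, div_pow ((σ : ℝ) ^ 5),
      Real.sq_sqrt hNr.le]
    have e1 : (N : ℝ) ≤ 48 * M * σ ^ 2 * P := by
      have e : N ≤ 48 * M * σ ^ 2 * P := by
        calc N ≤ 24 * 2 ^ (b + 1) * σ ^ 2 * P := h4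
          _ = 48 * 2 ^ b * (σ ^ 2 * P) := by ring
          _ ≤ 48 * M * (σ ^ 2 * P) := Nat.mul_le_mul_right _ (Nat.mul_le_mul_left _ m3)
          _ = _ := by ring
      exact_mod_cast e
    calc (16 * (σ : ℝ) ^ 3 / P) ^ 2 * (2 * ((k * P : ℕ) : ℝ) / M)
        = (16 * (σ : ℝ) ^ 3 / P) ^ 2 * ((k * P : ℕ) : ℝ) * (2 / M) := by ring
      _ ≤ 768 * (σ : ℝ) ^ 8 / P * (2 / M) := mul_le_mul_of_nonneg_right hq2 (by positivity)
      _ = 73728 * (σ : ℝ) ^ 10 / (48 * M * σ ^ 2 * P) := by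
          field_simp
          ring
      _ ≤ 73728 * (σ : ℝ) ^ 10 / N := div_le_div_of_nonneg_left (by positivity) hNr e1
      _ ≤ 73984 * (σ : ℝ) ^ 10 / N := by gcongr; norm_num
      _ = _ := by ring

/-- The error of the approximation. -/
theorem par_err {t N σ S : ℕ} (hN : 1 ≤ N) (hσ : σ = t + Nat.log 2 N + 1) (hS : S ≤ 2 ^ t) :
    (S : ℝ) * ((1 / 2) ^ σ + 2 * (((N : ℝ) + 1) ^ σ * (1 / 2) ^ (2 * σ ^ 2))) ≤
      3 * (σ ^ 5 / √N) := by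
  have hσ1 : 1 ≤ σ := by omega
  have hσr : (1 : ℝ) ≤ σ := by exact_mod_cast hσ1
  have hNr : (1 : ℝ) ≤ N := by exact_mod_cast hN
  have hL : N < 2 ^ (Nat.log 2 N + 1) := Nat.lt_pow_succ_log_self (by norm_num) N
  have h1 : (N : ℝ) + 1 ≤ 2 ^ σ := by
    have e : N + 1 ≤ 2 ^ σ := le_trans hL (Nat.pow_le_pow_right (by norm_num) (by omega))
    exact_mod_cast e
  have h2 : ((N : ℝ) + 1) ^ σ * (1 / 2) ^ (2 * σ ^ 2) ≤ (1 / 2) ^ σ := by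
    calc ((N : ℝ) + 1) ^ σ * (1 / 2) ^ (2 * σ ^ 2) ≤ (2 ^ σ) ^ σ * (1 / 2) ^ (2 * σ ^ 2) := by
          gcongr
      _ = (2 * (1 / 2)) ^ (σ ^ 2) * (1 / 2) ^ (σ ^ 2) := by
          rw [← pow_mul, two_mul (σ ^ 2), pow_add, mul_pow, sq σ, mul_assoc]
      _ = (1 / 2) ^ (σ ^ 2) := by norm_num
      _ ≤ _ := pow_le_pow_of_le_one (by norm_num) (by norm_num) (Nat.le_self_pow (by norm_num) σ)
  have h3 : (S : ℝ) * (1 / 2) ^ σ ≤ 1 / N := by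
    have e : S * N ≤ 2 ^ σ := by
      calc S * N ≤ 2 ^ t * 2 ^ (Nat.log 2 N + 1) := Nat.mul_le_mul hS hL.le
        _ = 2 ^ σ := by rw [hσ]; ring
    have e' : (S : ℝ) * N ≤ 2 ^ σ := by exact_mod_cast e
    rw [one_div_pow, mul_one_div, div_le_div_iff₀ (by positivity) (by positivity), one_mul]
    exact e'
  have h4 : 1 / (N : ℝ) ≤ σ ^ 5 / √N := by
    have e : √(N : ℝ) ≤ N := Real.sqrt_le_iff.2 ⟨by positivity, by nlinarith⟩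
    exact div_le_div₀ (by positivity) (one_le_pow₀ hσr) (Real.sqrt_pos.2 (by linarith)) e
  have h5 : (0 : ℝ) ≤ S := by positivity
  nlinarith [mul_le_mul_of_nonneg_left h2 h5]

end Pool.Agent.Lib.MP_8a52c3_lc.Avg
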