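import Pool.Agent.Lib.MP_8a52c3_lc.Avg.Cov
import Pool.Agent.Lib.MP_8a52c3_lc.Avg.Agree
import Pool.Agent.Lib.MP_8a52c3_lc.Avg.Bal
import Pool.Agent.Lib.MP_8a52c3_lc.Avg.Design
import Pool.Agent.Lib.MP_8a52c3_lc.Avg.Lang
import Pool.Agent.Lib.MP_8a52c3_lc.Avg.ParP
import Pool.Agent.Lib.MP_8a52c3_lc.Avg.Params

/-! The correlation bound. -/

open Finset
open scoped BigOperators

namespace Pool.Agent.Lib.MP_8a52c3_lc.Avg

open Mono25 Pool.Agent.Lib.MP_8a52c3_lc.Neg N68a2faeb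

theorem avg_bound (s : ℕ → ℕ) (hs : IsPolyTime fun w : List Bool => s w.length) :
    ∃ L ∈ NP, (∀ (N : ℕ) (x y : Fin N → Bool), (∀ i, x i = true → y i = true) →
        L (List.ofFn x) = true → L (List.ofFn y) = true) ∧
      ∀ N ≥ 1, ∀ S ≤ 2 ^ s N, ∀ (T : Finset (Fin S)) (g : Fin S → (Fin N → Bool) → ℝ),
        Ngt T g → ∀ v, (Set.ncard {x | 0 < g v x ↔ L (List.ofFn x) = true} : ℝ) / 2 ^ N ≤
          1 / 2 + 10 ^ 5 * 2 ^ T.card * ((s N + Nat.log 2 N + 1 : ℕ) : ℝ) ^ 5 / √N := by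
  obtain ⟨p1, p2, p3, p4⟩ := par_pt hs
  obtain ⟨L, hL, hmono, hiff⟩ := lang_exists (M := MM s) (k := kk s) (c := fun N => 2 * sg s N)
    (P := PP s) p1 p2 p3 p4
  refine ⟨L, hL, hmono, fun N hN S hS T g hg v => ?_⟩
  have e0 := Ex_half (U := Fin N) fun x => 0 < g v x ↔ L (List.ofFn x) = true
  rw [Fintype.card_fin] at e0
  rw [← e0]
  generalize hσ : s N + Nat.log 2 N + 1 = σ
  have hσ1 : 1 ≤ σ := by omega
  have hσR : (1 : ℝ) ≤ σ := by exact_mod_cast hσ1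
  have hNR : (0 : ℝ) < √N := Real.sqrt_pos.2 (by exact_mod_cast hN)
  have hT : (1 : ℝ) ≤ 2 ^ T.card := one_le_pow₀ (by norm_num)
  obtain ⟨z, hz⟩ : ∃ z : ℝ, z = σ ^ 5 / √N := ⟨_, rfl⟩
  have hz0 : 0 ≤ z := by rw [hz]; positivity
  rw [mul_div_assoc, ← hz]
  by_cases h : (10 ^ 5 * σ ^ 5) ^ 2 ≤ N
  · obtain ⟨a0, a1, a2, a3, a4, a5, a6, a7, a8, a9, a10, a11, a12⟩ :=
      par_nat hσ.symm h rfl rfl rfl rfl
    obtain ⟨b1, b2, b3, b4, b5, b6, b7, b8, b9, b10, b11⟩ :=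
      par_real hσ1 a2 a4 a5 a6 a7 a8 a9 a10 a11 a12 rfl
    have b12 := par_err hN hσ.symm hS
    rw [← hz] at b8 b11 b12
    have hiff' := hiff N a1.pos a3 b2
    rw [a0] at hiff'
    generalize MM s N = M at *
    generalize kk s N = k at *
    generalize PP s N = P at *
    have : Fact P.Prime := ⟨a1⟩
    have c1 : σ ^ 2 ≤ σ ^ 8 := Nat.pow_le_pow_right hσ1 (by norm_num)
    have c2 : σ ≤ σ ^ 2 := Nat.le_self_pow (by norm_num) σ
    have hPR : (0 : ℝ) < P := by exact_mod_cast a1.pos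
    obtain ⟨B, K, H, hK⟩ := design (N := N) (M := M) (k := k) (c := 2 * σ) (P := P) (by omega)
      (by omega) b3
    have hQ : (Fintype.card (Fin (2 * σ) → ZMod P) : ℝ) = (P : ℝ) ^ (2 * σ) := by
      rw [Fintype.card_fun, ZMod.card, Fintype.card_fin, Nat.cast_pow]
    have hbal := balance H hPR (by exact_mod_cast (by omega : 2 * k ≤ P)) (by rw [hQ]) b4 b5 b6 b7
    have hag := agree (δ := 547 * z) (fun x => ∃ j p, K j p ⊆ x)
      (fun x y hxy ⟨j, p, hp⟩ => ⟨j, p, hp.trans hxy⟩) hbal (fun g v hg => by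
        refine cov_le b1 H.cardK (by rw [hQ]; exact b5) (by positivity) (chi_mono hg v) ?_
        refine (plant_le (m := 2 * σ ^ 2) (ρ := 8 * σ / P) H b1 (by positivity) b9 (by omega) hPR
          hσ1 (by rw [mul_div_cancel₀ _ hPR.ne']) b10 hg v).trans ?_
        rw [Fintype.card_fin]
        linarith) hg v
    have e1 : (fun W : Finset (Fin N) => ind (0 < g v (chi W) ↔ L (List.ofFn (chi W)) = true)) =
        fun W => ind (0 < g v (chi W) ↔ ∃ j p, K j p ⊆ W) := by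
      funext W
      rw [hiff' (by omega) (by omega)]
      simp only [hK]
    rw [e1]
    refine hag.trans ?_
    nlinarith [mul_nonneg (sub_nonneg.2 hT) hz0]
  · refine (Ex_mono (by norm_num) (by norm_num) fun W => ind_le_one _).trans ?_
    rw [Ex_const]
    have h1 : √(N : ℝ) ≤ 10 ^ 5 * σ ^ 5 :=
      Real.sqrt_le_iff.2 ⟨by positivity, by exact_mod_cast (not_le.1 h).le⟩
    have h2 : 1 ≤ 10 ^ 5 * z := by
      rw [hz, ← mul_div_assoc, le_div_iff₀ hNR, one_mul]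
      exact h1
    nlinarith [mul_nonneg (sub_nonneg.2 hT) hz0]

end Pool.Agent.Lib.MP_8a52c3_lc.Avg
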