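import Pool.Agent.Lib.MP_8a52c3_lc.Avg.Defs

/-! Product measures on subsets: planting, correlation inequality, independence. -/

open Finset
open scoped BigOperators

namespace Pool.Agent.Lib.MP_8a52c3_lc.Avg

open Mono25

variable {U : Type} [Fintype U] [DecidableEq U]

theorem Ex_sub (ρ : ℝ) (φ ψ : Finset U → ℝ) :
    Ex ρ (fun W => φ W - ψ W) = Ex ρ φ - Ex ρ ψ := by
  unfold Ex
  rw [← sum_sub_distrib]
  exact sum_congr rfl fun _ _ => mul_sub _ _ _

theorem Ex_sum {κ : Type} (ρ : ℝ) (s : Finset κ) (φ : κ → Finset U → ℝ) :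
    Ex ρ (fun W => ∑ i ∈ s, φ i W) = ∑ i ∈ s, Ex ρ (φ i) := by
  unfold Ex
  simp only [mul_sum]
  exact sum_comm

theorem Ex_expect {κ : Type} [Fintype κ] (ρ : ℝ) (φ : κ → Finset U → ℝ) :
    Ex ρ (fun W => 𝔼 i, φ i W) = 𝔼 i, Ex ρ (φ i) := by
  unfold Ex
  simp only [mul_expect]
  exact (expect_sum_comm _ _ _).symm

theorem Ex_prod (ρ : ℝ) (a b : U → ℝ) :
    Ex ρ (fun W => ∏ u, if u ∈ W then a u else b u) = ∏ u, (ρ * a u + (1 - ρ) * b u) := by
  rw [← sum_prod_ite (fun u => ρ * a u) (fun u => (1 - ρ) * b u)]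
  unfold Ex pw
  refine sum_congr rfl fun W _ => ?_
  rw [← prod_mul_distrib]
  exact prod_congr rfl fun u _ => by split_ifs <;> rfl

/-- The two block form of independence. -/
theorem prob_two (ρ : ℝ) (B : Finset U) (f g : Finset U → ℝ) :
    Ex ρ (fun x => f (x ∩ B) * g (x \ B)) =
      Ex ρ (fun x => f (x ∩ B)) * Ex ρ fun x => g (x \ B) := by
  let τ : Finset U × Finset U → Finset U × Finset U :=
    fun q => ((q.1 ∩ B) ∪ (q.2 \ B), (q.2 ∩ B) ∪ (q.1 \ B))
  have hτ : Function.Involutive τ := by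
    rintro ⟨x, y⟩
    refine Prod.ext ?_ ?_
    · ext u
      simp only [τ, mem_union, mem_inter, mem_sdiff]
      tauto
    · ext u
      simp only [τ, mem_union, mem_inter, mem_sdiff]
      tauto
  have e1 : Ex ρ (fun x => f (x ∩ B) * g (x \ B)) =
      ∑ q : Finset U × Finset U, pw ρ q.1 * pw ρ q.2 * (f (q.1 ∩ B) * g (q.1 \ B)) := by
    rw [Fintype.sum_prod_type]
    unfold Ex
    refine sum_congr rfl fun x _ => ?_
    dsimp only
    rw [← sum_mul, ← mul_sum, sum_pw, mul_one]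
  have e2 : Ex ρ (fun x => f (x ∩ B)) * Ex ρ (fun x => g (x \ B)) =
      ∑ q : Finset U × Finset U, pw ρ q.1 * pw ρ q.2 * (f (q.1 ∩ B) * g (q.2 \ B)) := by
    rw [Fintype.sum_prod_type]
    unfold Ex
    rw [sum_mul_sum]
    exact sum_congr rfl fun x _ => sum_congr rfl fun y _ => by ring
  rw [e1, e2, ← Equiv.sum_comp hτ.toPerm]
  refine sum_congr rfl ?_
  rintro ⟨x, y⟩ -
  have a1 : ((x ∩ B) ∪ (y \ B)) ∩ B = x ∩ B := by
    ext u
    simp only [mem_union, mem_inter, mem_sdiff]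
    tauto
  have a2 : ((x ∩ B) ∪ (y \ B)) \ B = y \ B := by
    ext u
    simp only [mem_union, mem_inter, mem_sdiff]
    tauto
  have a3 : pw ρ ((x ∩ B) ∪ (y \ B)) * pw ρ ((y ∩ B) ∪ (x \ B)) = pw ρ x * pw ρ y := by
    unfold pw
    rw [← prod_mul_distrib, ← prod_mul_distrib]
    refine prod_congr rfl fun u _ => ?_
    by_cases hB : u ∈ B
    · simp [hB]
    · simp [hB, mul_comm]
  show pw ρ ((x ∩ B) ∪ (y \ B)) * pw ρ ((y ∩ B) ∪ (x \ B)) *
    (f (((x ∩ B) ∪ (y \ B)) ∩ B) * g (((x ∩ B) ∪ (y \ B)) \ B)) = _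
  rw [a1, a2, a3]

/-- Conditioning on containing `y` is the same as adding `y`. -/
theorem Ex_plant (ρ : ℝ) (φ : Finset U → ℝ) (y : Finset U) :
    Ex ρ (fun x => φ x * ind (y ⊆ x)) = ρ ^ y.card * Ex ρ fun x => φ (x ∪ y) := by
  have h := prob_two ρ y (fun z => ind (y ⊆ z)) (fun z => φ (z ∪ y))
  have e1 : (fun x => φ x * ind (y ⊆ x)) =
      fun x : Finset U => ind (y ⊆ x ∩ y) * φ (x \ y ∪ y) := by
    funext x
    by_cases hx : y ⊆ x
    · rw [ind_true hx, ind_true (subset_inter hx subset_rfl), sdiff_union_of_subset hx]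
      ring
    · rw [ind_false hx, ind_false fun a => hx (a.trans inter_subset_left)]
      ring
  have e2 : (fun x : Finset U => φ (x \ y ∪ y)) = fun x => φ (x ∪ y) := by
    funext x
    rw [sdiff_union_self_eq_union]
  have e3 : Ex ρ (fun x : Finset U => ind (y ⊆ x ∩ y)) = ρ ^ y.card := by
    rw [← ms_supset, ms_pw]
    refine congrArg (Ex ρ) (funext fun x => congrArg ind (propext ?_))
    exact ⟨fun a => a.trans inter_subset_left, fun a => subset_inter a subset_rfl⟩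
  rw [e1, h, e2, e3]

/-- Cauchy-Schwarz. -/
theorem Ex_cs {ρ : ℝ} (h0 : 0 ≤ ρ) (h1 : ρ ≤ 1) (φ ψ : Finset U → ℝ) :
    Ex ρ (fun x => φ x * ψ x) ^ 2 ≤ Ex ρ (fun x => φ x ^ 2) * Ex ρ fun x => ψ x ^ 2 := by
  unfold Ex
  refine sum_sq_le_sum_mul_sum_of_sq_le_mul _
    (fun x _ => mul_nonneg (pw_nonneg h0 h1 x) (sq_nonneg _))
    (fun x _ => mul_nonneg (pw_nonneg h0 h1 x) (sq_nonneg _)) fun x _ => le_of_eq (by ring)

/-- The Harris inequality. -/
theorem harris {ρ : ℝ} (h0 : 0 ≤ ρ) (h1 : ρ ≤ 1) {φ ψ : Finset U → ℝ} (hφ : Monotone φ)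
    (hψ : Monotone ψ) : Ex ρ φ * Ex ρ ψ ≤ Ex ρ fun x => φ x * ψ x := by
  have hμ : ∀ a b : Finset U, pw ρ a * pw ρ b ≤ pw ρ (a ⊓ b) * pw ρ (a ⊔ b) := by
    intro a b
    refine le_of_eq ?_
    unfold pw
    rw [← prod_mul_distrib, ← prod_mul_distrib]
    refine prod_congr rfl fun u _ => ?_
    by_cases ha : u ∈ a <;> by_cases hb : u ∈ b <;> simp [ha, hb, mul_comm]
  have h := fkg (fun x : Finset U => φ x - φ ∅) (fun x : Finset U => ψ x - ψ ∅) (pw ρ)
    (fun x => pw_nonneg h0 h1 x) (fun x => sub_nonneg.2 (hφ (empty_subset x)))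
    (fun x => sub_nonneg.2 (hψ (empty_subset x)))
    (fun a b hab => sub_le_sub_right (hφ hab) _) (fun a b hab => sub_le_sub_right (hψ hab) _) hμ
  rw [sum_pw, one_mul] at h
  have e1 : ∑ x : Finset U, pw ρ x * (φ x - φ ∅) = Ex ρ φ - φ ∅ := by
    rw [← Ex_const (U := U) ρ (φ ∅), ← Ex_sub]
    simp only [Ex_const]
    rfl
  have e2 : ∑ x : Finset U, pw ρ x * (ψ x - ψ ∅) = Ex ρ ψ - ψ ∅ := by
    rw [← Ex_const (U := U) ρ (ψ ∅), ← Ex_sub]
    simp only [Ex_const]
    rfl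
  have e3 : ∑ x : Finset U, pw ρ x * ((φ x - φ ∅) * (ψ x - ψ ∅)) =
      Ex ρ (fun x => φ x * ψ x) - ψ ∅ * Ex ρ φ - φ ∅ * Ex ρ ψ + φ ∅ * ψ ∅ := by
    rw [← Ex_mul, ← Ex_mul, ← Ex_sub, ← Ex_sub, ← Ex_const (U := U) ρ (φ ∅ * ψ ∅), ← Ex_add]
    unfold Ex
    exact sum_congr rfl fun x _ => by ring
  rw [e1, e2, e3] at h
  nlinarith [h]

/-- Functions of disjoint blocks are independent. -/
theorem Ex_indep {M : ℕ} (ρ : ℝ) (B : Fin M → Finset U)
    (hB : ∀ j j', j ≠ j' → Disjoint (B j) (B j')) (φ : Fin M → Finset U → ℝ) :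
    Ex ρ (fun x => ∏ j, φ j (x ∩ B j)) = ∏ j, Ex ρ fun x => φ j (x ∩ B j) := by
  have key : ∀ s : Finset (Fin M), Ex ρ (fun x => ∏ j ∈ s, φ j (x ∩ B j)) =
      ∏ j ∈ s, Ex ρ fun x => φ j (x ∩ B j) := by
    intro s
    induction s using Finset.induction_on with
    | empty => simp only [prod_empty, Ex_const]
    | insert a s ha ih =>
      have e : ∀ x : Finset U, ∏ j ∈ s, φ j ((x \ B a) ∩ B j) = ∏ j ∈ s, φ j (x ∩ B j) := by
        intro x
        refine prod_congr rfl fun j hj => congrArg (φ j) ?_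
        have hd := hB a j fun h => ha (h ▸ hj)
        ext u
        simp only [mem_inter, mem_sdiff]
        exact ⟨fun h => ⟨h.1.1, h.2⟩, fun h => ⟨⟨h.1, fun h' => disjoint_left.1 hd h' h.2⟩, h.2⟩⟩
      have h := prob_two ρ (B a) (φ a) (fun z => ∏ j ∈ s, φ j (z ∩ B j))
      simp only [e] at h
      simp only [prod_insert ha]
      rw [h, ih]
  exact key univ

/-- The measure of bias one half is the uniform measure on words. -/
theorem Ex_half (A : (U → Bool) → Prop) :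
    Ex (1 / 2) (fun W => ind (A (chi W))) =
      (Set.ncard {x | A x} : ℝ) / 2 ^ Fintype.card U := by
  classical
  have hb : Function.Bijective (chi : Finset U → U → Bool) := by
    refine ⟨fun a b h => ?_, fun x => ⟨univ.filter fun u => x u = true, ?_⟩⟩
    · ext u
      have := congrFun h u
      simpa [chi] using this
    · funext u
      simp [chi]
  have e1 : ∀ W : Finset U, pw (1 / 2) W = 1 / 2 ^ Fintype.card U := by
    intro W
    unfold pw
    have : ∀ u : U, (if u ∈ W then (1 / 2 : ℝ) else 1 - 1 / 2) = 1 / 2 := by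
      intro u; split_ifs <;> norm_num
    rw [prod_congr rfl fun u _ => this u, prod_const, card_univ, div_pow, one_pow]
  unfold Ex
  simp only [e1]
  have e2 : ∑ W : Finset U, ind (A (chi W)) = ∑ x : U → Bool, ind (A x) :=
    (Equiv.ofBijective _ hb).sum_comp fun x => ind (A x)
  have e3 : ∑ x : U → Bool, ind (A x) = ((univ.filter A).card : ℝ) := by
    rw [card_filter]
    push_cast
    refine sum_congr rfl fun x _ => ?_
    by_cases h : A x
    · rw [ind_true h, if_pos h]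
    · rw [ind_false h, if_neg h]
  have e4 : {x | A x} = ((univ.filter A : Finset (U → Bool)) : Set (U → Bool)) := by
    ext x
    simp
  rw [← mul_sum, e2, e3, e4, Set.ncard_coe_finset]
  ring

end Pool.Agent.Lib.MP_8a52c3_lc.Avg
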