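import Pool.Agent.Lib.MP_8a52c3_lc.Avg.Spread

/-! One step of the approximation: width `2 l` is reduced to width `l`. -/

open Finset
open scoped BigOperators

namespace Pool.Agent.Lib.MP_8a52c3_lc.Avg

open Mono25

variable {U Q : Type} [Fintype U] [DecidableEq U] [Fintype Q]

theorem card_small (l : ℕ) :
    (univ.filter fun A : Finset U => A.card ≤ l).card ≤ (Fintype.card U + 1) ^ l := by
  have h1 : (univ.filter fun A : Finset U => A.card ≤ l) ⊆
      (range (l + 1)).biUnion fun i => powersetCard i univ := fun A hA =>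
    mem_biUnion.2 ⟨A.card, mem_range.2 (Nat.lt_succ_of_le (mem_filter.1 hA).2),
      mem_powersetCard.2 ⟨subset_univ _, rfl⟩⟩
  refine (card_le_card h1).trans (card_biUnion_le.trans ?_)
  rw [add_pow]
  refine sum_le_sum fun i hi => ?_
  rw [card_powersetCard, card_univ, one_pow, mul_one, Nat.cast_id]
  exact (Nat.choose_le_pow _ _).trans
    (Nat.le_mul_of_pos_right _ (Nat.choose_pos (Nat.le_of_lt_succ (mem_range.1 hi))))

theorem red_ind (p q : Prop) : ind p * ind q = ind (p ∧ q) := by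
  by_cases hp : p <;> by_cases hq : q <;> simp [ind, hp, hq]

theorem red_pos {P ρ : ℝ} {l m : ℕ} (h0 : 0 < ρ) (h1 : m * ρ ≤ 1) (hm : 1 ≤ m) (hP : 0 < P)
    (hl : 8 * l ≤ P * ρ) {K : Q → Finset U} (hK : Spr (2 * l) P K) {φ ψ : Finset U → ℝ}
    (hφ : Loc (2 * l) φ) (hψ : ∀ A y, A ⊆ y → A.card ≤ l →
      Ex (m * ρ) (fun G => ind (φ (G ∪ A) < φ y)) ≤ (1 / 2) ^ m → φ y ≤ ψ y) :
    𝔼 p, ind (ψ (K p) < φ (K p)) ≤ (1 / 2) ^ l := by
  choose F hFK hFc hFφ using fun p => hφ.2 (K p)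
  have hρ : ρ ≤ 1 := by
    have : (1 : ℝ) ≤ m := by exact_mod_cast hm
    nlinarith
  have hr : 0 < P / 2 := by positivity
  obtain ⟨w, hw⟩ : ∃ w : Q → ℝ, ∀ p, w p = ind (ψ (K p) < φ (K p)) / Fintype.card Q :=
    ⟨_, fun _ => rfl⟩
  have hw0 : ∀ p, 0 ≤ w p := fun p => hw p ▸ div_nonneg (ind_nonneg _) (Nat.cast_nonneg _)
  obtain ⟨W, hW⟩ : ∃ W : Finset U → ℝ, ∀ A, W A = ∑ p, w p * ind (A ⊆ F p) := ⟨_, fun _ => rfl⟩
  obtain ⟨A, -, hA⟩ := exists_max_image univ (fun A => W A * (P / 2) ^ A.card) univ_nonempty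
  by_contra hβ
  have hβ1 : (1 / 2 : ℝ) ^ l < W A * (P / 2) ^ A.card := by
    refine (not_le.1 hβ).trans_le (le_trans (le_of_eq ?_) (hA ∅ (mem_univ _)))
    rw [Mono.ex_eq_sum, sum_div, hW, card_empty, pow_zero, mul_one]
    exact sum_congr rfl fun p _ => by rw [hw, ind_true (empty_subset _), mul_one]
  have hWA : 0 < W A := (mul_pos_iff_of_pos_right (by positivity)).1
    (lt_trans (by positivity) hβ1)
  have hw' : ∀ p, 0 ≤ w p * ind (A ⊆ F p) := fun p => mul_nonneg (hw0 p) (ind_nonneg _)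
  have hpos : ∀ p, 0 < w p * ind (A ⊆ F p) → ψ (K p) < φ (K p) ∧ A ⊆ F p := fun p hp => by
    by_contra h
    rcases not_and_or.1 h with h | h
    · rw [hw, ind_false h, zero_div, zero_mul] at hp
      exact lt_irrefl _ hp
    · rw [ind_false h, mul_zero] at hp
      exact lt_irrefl _ hp
  obtain ⟨p₁, -, hp₁⟩ := exists_lt_of_sum_lt (s := univ) (f := fun _ => (0 : ℝ))
    (g := fun p => w p * ind (A ⊆ F p)) (by rwa [sum_const_zero, ← hW])
  have hAl : A.card ≤ l := by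
    have h2 : W A ≤ (1 / P) ^ A.card := by
      refine le_trans ?_ (hK A ((card_le_card (hpos p₁ hp₁).2).trans (hFc p₁)))
      rw [Mono.ex_eq_sum, sum_div, hW]
      refine sum_le_sum fun p _ => ?_
      rw [hw, div_mul_eq_mul_div, red_ind]
      exact div_le_div_of_nonneg_right (ind_mono fun h => h.2.trans (hFK p)) (Nat.cast_nonneg _)
    have h3 := hβ1.trans_le (mul_le_mul_of_nonneg_right h2 (by positivity))
    rw [← mul_pow, show 1 / P * (P / 2) = 1 / 2 by field_simp] at h3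
    exact ((pow_lt_pow_iff_right_of_lt_one₀ (by norm_num) (by norm_num)).1 h3).le
  have h4 := link (κ := W A) (d := 2 * l) h0 hρ hr (by push_cast; linarith)
    (fun p => w p * ind (A ⊆ F p)) hw' (fun p => F p \ A)
    (fun p => (card_le_card sdiff_subset).trans (hFc p)) fun T _ => ?_
  swap
  · by_cases hT : Disjoint A T
    · have h5 : ∑ p, w p * ind (A ⊆ F p) * ind (T ⊆ F p \ A) = W (A ∪ T) := by
        rw [hW]
        refine sum_congr rfl fun p _ => ?_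
        rw [mul_assoc, red_ind, subset_sdiff, union_subset_iff]
        simp only [hT.symm, and_true]
      have h6 := hA (A ∪ T) (mem_univ _)
      rw [card_union_of_disjoint hT, pow_add, ← mul_assoc, mul_right_comm] at h6
      rw [h5, one_div, inv_pow, ← div_eq_mul_inv, le_div_iff₀ (by positivity)]
      exact le_of_mul_le_mul_right h6 (by positivity)
    · rw [sum_eq_zero fun p _ => by
        rw [ind_false fun h : T ⊆ F p \ A => hT (subset_sdiff.1 h).2.symm, mul_zero]]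
      positivity
  rw [← hW] at h4
  obtain ⟨E, hE⟩ : ∃ E : Finset U → Prop,
      E = fun G => ∃ p, 0 < w p * ind (A ⊆ F p) ∧ F p \ A ⊆ G := ⟨_, rfl⟩
  have h5 : Ex ρ (fun G => ind (¬ E G)) ≤ 1 / 2 := by
    have h6 : (fun G => ind (¬ E G)) = fun G => 1 - ind (E G) := funext fun G => by
      by_cases h : E G <;> simp [ind, h]
    rw [h6, Ex_sub, Ex_const, hE]
    nlinarith
  have h6 := (boost h0.le h1 (fun G => ¬ E G) fun G G' h h' h'' => h' (by
    rw [hE] at h'' ⊢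
    exact h''.imp fun p hp => ⟨hp.1, hp.2.trans h⟩)).trans
      (pow_le_pow_left₀ ((Ex_const ρ 0).ge.trans (Ex_mono h0.le hρ fun G => ind_nonneg _)) h5 m)
  obtain ⟨p₀, hp₀, hmin⟩ := exists_min_image (univ.filter fun p => 0 < w p * ind (A ⊆ F p))
    (fun p => φ (K p)) ⟨p₁, mem_filter.2 ⟨mem_univ _, hp₁⟩⟩
  obtain ⟨h7, h8⟩ := hpos p₀ (mem_filter.1 hp₀).2
  refine h7.not_ge (hψ A _ (h8.trans (hFK p₀)) hAl (le_trans
    (Ex_mono (by positivity) h1 fun G => ind_mono (q := ¬ E G) fun h h' => h.not_ge ?_) h6))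
  rw [hE] at h'
  obtain ⟨p, hp, hG⟩ := h'
  exact (hmin p (mem_filter.2 ⟨mem_univ _, hp⟩)).trans ((hFφ p).trans
    (hφ.1 (sdiff_le_iff.1 hG |>.trans_eq (sup_comm _ _))))

theorem red {P ρ : ℝ} {l m : ℕ} (h0 : 0 < ρ) (h1 : m * ρ ≤ 1) (hm : 1 ≤ m) (hP : 0 < P)
    (hl : 8 * l ≤ P * ρ) {K : Q → Finset U} (hK : Spr (2 * l) P K) {φ : Finset U → ℝ}
    (hφ : Loc (2 * l) φ) :
    ∃ ψ : Finset U → ℝ, Loc l ψ ∧ 𝔼 p, ind (ψ (K p) < φ (K p)) ≤ (1 / 2) ^ l ∧
      Ex (m * ρ) (fun G => ind (φ G < ψ G)) ≤ ((Fintype.card U : ℝ) + 1) ^ l * (1 / 2) ^ m := by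
  have hq : 0 ≤ m * ρ := by positivity
  have h2 : ∀ A : Finset U, ∃ z, Ex (m * ρ) (fun G => ind (φ (G ∪ A) < φ z)) ≤ (1 / 2) ^ m ∧
      ∀ y, Ex (m * ρ) (fun G => ind (φ (G ∪ A) < φ y)) ≤ (1 / 2) ^ m → φ y ≤ φ z := fun A => by
    obtain ⟨z, hz, h⟩ := exists_max_image (univ.filter fun z =>
      Ex (m * ρ) (fun G => ind (φ (G ∪ A) < φ z)) ≤ (1 / 2) ^ m) φ ⟨∅, mem_filter.2 ⟨mem_univ _,
        (Ex_mono hq h1 fun G => (ind_false (hφ.1 (empty_subset _)).not_gt).le).trans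
          ((Ex_const _ 0).trans_le (by positivity))⟩⟩
    exact ⟨z, (mem_filter.1 hz).2, fun y hy => h y (mem_filter.2 ⟨mem_univ _, hy⟩)⟩
  choose z hz hz' using h2
  have h3 : ∀ y : Finset U, ∃ a, (a ⊆ y ∧ a.card ≤ l) ∧
      ∀ A, A ⊆ y → A.card ≤ l → φ (z A) ≤ φ (z a) := fun y => by
    obtain ⟨a, ha, h⟩ := exists_max_image (univ.filter fun A => A ⊆ y ∧ A.card ≤ l)
      (fun A => φ (z A)) ⟨∅, by simp⟩
    exact ⟨a, (mem_filter.1 ha).2, fun A h4 h5 => h A (mem_filter.2 ⟨mem_univ _, h4, h5⟩)⟩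
  choose a ha ha' using h3
  refine ⟨fun y => φ (z (a y)), ⟨fun y y' h => ha' y' _ ((ha y).1.trans h) (ha y).2,
    fun y => ⟨a y, (ha y).1, (ha y).2, ha' _ _ Subset.rfl (ha y).2⟩⟩,
    red_pos h0 h1 hm hP hl hK hφ fun A y h4 h5 h6 => (hz' A y h6).trans (ha' y A h4 h5), ?_⟩
  refine (Ex_mono hq h1 (ψ := fun G => ∑ A ∈ univ.filter fun A : Finset U => A.card ≤ l,
    ind (φ (G ∪ A) < φ (z A))) fun G => ?_).trans ?_
  · refine le_trans (le_of_eq ?_) (single_le_sum (f := fun A => ind (φ (G ∪ A) < φ (z A)))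
      (fun _ _ => ind_nonneg _) (mem_filter.2 ⟨mem_univ (a G), (ha G).2⟩))
    rw [union_eq_left.2 (ha G).1]
  · rw [Ex_sum]
    refine (sum_le_card_nsmul _ _ _ fun A _ => hz A).trans ?_
    rw [nsmul_eq_mul]
    exact mul_le_mul_of_nonneg_right (by exact_mod_cast card_small l) (by positivity)

end Pool.Agent.Lib.MP_8a52c3_lc.Avg
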