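import Pool.Agent.Lib.MP_8a52c3_lc.Avg.Prob

/-! The second moment bound and a weak spread lemma. -/

open Finset
open scoped BigOperators

namespace Pool.Agent.Lib.MP_8a52c3_lc.Avg

open Mono25

variable {U Q : Type} [Fintype U] [DecidableEq U] [Fintype Q]

theorem spread_supset (ρ : ℝ) (B : Finset U) :
    Ex ρ (fun G => ind (B ⊆ G)) = ρ ^ B.card := ms_supset ρ B

omit [Fintype U] in
theorem spread_ind_union (A B G : Finset U) :
    ind (A ⊆ G) * ind (B ⊆ G) = ind (A ∪ B ⊆ G) := by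
  by_cases hA : A ⊆ G
  · by_cases hB : B ⊆ G
    · rw [ind_true hA, ind_true hB, ind_true (union_subset hA hB), one_mul]
    · rw [ind_false hB, ind_false (fun h => hB (subset_union_right.trans h)), mul_zero]
  · rw [ind_false hA, ind_false (fun h => hA (subset_union_left.trans h)), zero_mul]

theorem spread_ind_sq (p : Prop) : ind p ^ 2 = ind p := by
  by_cases h : p
  · rw [ind_true h]; norm_num
  · rw [ind_false h]; norm_num

theorem spread_Ex_nonneg {ρ : ℝ} (h0 : 0 ≤ ρ) (h1 : ρ ≤ 1) {φ : Finset U → ℝ}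
    (h : ∀ W, 0 ≤ φ W) : 0 ≤ Ex ρ φ := by
  have := Ex_mono h0 h1 (φ := fun _ => (0 : ℝ)) (ψ := φ) h
  rwa [Ex_const] at this

/-- The second moment bound. -/
theorem sm {ρ : ℝ} (h0 : 0 < ρ) (h1 : ρ ≤ 1) (w : Q → ℝ) (hw : ∀ p, 0 ≤ w p)
    (F : Q → Finset U) :
    (∑ p, w p) ^ 2 ≤ Ex ρ (fun G => ind (∃ p, 0 < w p ∧ F p ⊆ G)) *
      ∑ p, ∑ p', w p * w p' * (1 / ρ) ^ (F p ∩ F p').card := by
  have hρ : ρ ≠ 0 := h0.ne'
  set Z : Finset U → ℝ := fun G => ∑ p, (w p * (1 / ρ) ^ (F p).card) * ind (F p ⊆ G) with hZ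
  have e1 : Ex ρ Z = ∑ p, w p := by
    rw [hZ, Ex_sum]
    refine sum_congr rfl fun p _ => ?_
    rw [Ex_mul, spread_supset, mul_assoc, ← mul_pow, one_div_mul_cancel hρ, one_pow, mul_one]
  have e2 : ∀ G, ind (∃ p, 0 < w p ∧ F p ⊆ G) * Z G = Z G := by
    intro G
    by_cases h : ∃ p, 0 < w p ∧ F p ⊆ G
    · rw [ind_true h, one_mul]
    · rw [ind_false h, zero_mul, hZ]
      symm
      refine sum_eq_zero fun p _ => ?_
      by_cases hp : F p ⊆ G
      · have : w p = 0 := le_antisymm (not_lt.1 fun hh => h ⟨p, hh, hp⟩) (hw p)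
        rw [this, zero_mul, zero_mul]
      · rw [ind_false hp, mul_zero]
  have e3 : Ex ρ (fun G => Z G ^ 2) =
      ∑ p, ∑ p', w p * w p' * (1 / ρ) ^ (F p ∩ F p').card := by
    have : (fun G => Z G ^ 2) = fun G => ∑ p, ∑ p',
        ((w p * (1 / ρ) ^ (F p).card) * (w p' * (1 / ρ) ^ (F p').card)) *
          ind (F p ∪ F p' ⊆ G) := by
      funext G
      rw [hZ, sq, sum_mul_sum]
      refine sum_congr rfl fun p _ => sum_congr rfl fun p' _ => ?_
      rw [← spread_ind_union]; ring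
    rw [this, Ex_sum]
    refine sum_congr rfl fun p _ => ?_
    rw [Ex_sum]
    refine sum_congr rfl fun p' _ => ?_
    rw [Ex_mul, spread_supset]
    have hc := card_union_add_card_inter (F p) (F p')
    have h2 : (1 / ρ) ^ (F p).card * (1 / ρ) ^ (F p').card =
        (1 / ρ) ^ (F p ∪ F p').card * (1 / ρ) ^ (F p ∩ F p').card := by
      rw [← pow_add, ← pow_add, hc]
    have h3 : (1 / ρ) ^ (F p ∪ F p').card * ρ ^ (F p ∪ F p').card = 1 := by
      rw [← mul_pow, one_div_mul_cancel hρ, one_pow]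
    calc w p * (1 / ρ) ^ (F p).card * (w p' * (1 / ρ) ^ (F p').card) * ρ ^ (F p ∪ F p').card
        = w p * w p' * ((1 / ρ) ^ (F p).card * (1 / ρ) ^ (F p').card) *
            ρ ^ (F p ∪ F p').card := by ring
      _ = w p * w p' * (1 / ρ) ^ (F p ∩ F p').card *
            ((1 / ρ) ^ (F p ∪ F p').card * ρ ^ (F p ∪ F p').card) := by rw [h2]; ring
      _ = _ := by rw [h3, mul_one]
  have hcs := Ex_cs h0.le h1 (fun G => ind (∃ p, 0 < w p ∧ F p ⊆ G)) Z
  simp only [e2, spread_ind_sq] at hcs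
  rw [e3] at hcs
  rw [← e1]
  exact hcs

omit [Fintype U] [DecidableEq U] in
theorem spread_sum_pow (a : ℝ) (I : Finset U) :
    ∑ T ∈ I.powerset, a ^ T.card = (1 + a) ^ I.card := by
  have := Finset.sum_pow_mul_eq_add_pow a 1 I
  simp only [one_pow, mul_one] at this
  rw [this, add_comm]

omit [Fintype U] in
theorem spread_pow_inter {a : ℝ} (ha : 0 ≤ a) (A B : Finset U) :
    a ^ (A ∩ B).card ≤ ∑ T ∈ A.powerset, a ^ T.card * ind (T ⊆ B) := by
  have h : a ^ (A ∩ B).card = a ^ (A ∩ B).card * ind (A ∩ B ⊆ B) := by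
    rw [ind_true inter_subset_right, mul_one]
  rw [h]
  exact single_le_sum (f := fun T : Finset U => a ^ T.card * ind (T ⊆ B))
    (fun T _ => mul_nonneg (pow_nonneg ha _) (ind_nonneg _))
    (mem_powerset.2 inter_subset_left)

theorem spread_exp_half : Real.exp (1 / 2) ≤ 2 := by
  have h1 : Real.exp (1 / 2) * Real.exp (1 / 2) = Real.exp 1 := by
    rw [← Real.exp_add]; norm_num
  have h2 := Real.exp_one_lt_d9
  have h3 := Real.exp_pos (1 / 2)
  nlinarith

/-- The weak spread lemma. -/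
theorem link {ρ r κ : ℝ} {d : ℕ} (h0 : 0 < ρ) (h1 : ρ ≤ 1) (hr : 0 < r) (hd : 2 * d ≤ r * ρ)
    (w : Q → ℝ) (hw : ∀ p, 0 ≤ w p) (F : Q → Finset U) (hF : ∀ p, (F p).card ≤ d)
    (hs : ∀ T : Finset U, T.card ≤ d → ∑ p, w p * ind (T ⊆ F p) ≤ κ * (1 / r) ^ T.card) :
    ∑ p, w p ≤ 2 * κ * Ex ρ fun G => ind (∃ p, 0 < w p ∧ F p ⊆ G) := by
  have ha : 0 ≤ 1 / ρ := by positivity
  have hb : 0 ≤ ∑ p, w p := sum_nonneg fun p _ => hw p
  have hκ : ∑ p, w p ≤ κ := by
    have := hs ∅ (by simp)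
    simpa [ind_true trivial] using this
  have hκ0 : 0 ≤ κ := hb.trans hκ
  have hrρ : 0 < r * ρ := mul_pos hr h0
  have key : ∀ p, ∑ p', w p' * (1 / ρ) ^ (F p ∩ F p').card ≤ 2 * κ := by
    intro p
    calc ∑ p', w p' * (1 / ρ) ^ (F p ∩ F p').card
        ≤ ∑ p', w p' * ∑ T ∈ (F p).powerset, (1 / ρ) ^ T.card * ind (T ⊆ F p') :=
          sum_le_sum fun p' _ => mul_le_mul_of_nonneg_left (spread_pow_inter ha _ _) (hw p')
      _ = ∑ T ∈ (F p).powerset, (1 / ρ) ^ T.card * ∑ p', w p' * ind (T ⊆ F p') := by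
          simp only [mul_sum]
          rw [sum_comm]
          exact sum_congr rfl fun T _ => sum_congr rfl fun p' _ => by ring
      _ ≤ ∑ T ∈ (F p).powerset, (1 / ρ) ^ T.card * (κ * (1 / r) ^ T.card) :=
          sum_le_sum fun T hT => mul_le_mul_of_nonneg_left
            (hs T ((card_le_card (mem_powerset.1 hT)).trans (hF p))) (pow_nonneg ha _)
      _ = κ * (1 + 1 / (r * ρ)) ^ (F p).card := by
          rw [← spread_sum_pow, mul_sum]
          refine sum_congr rfl fun T _ => ?_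
          have : 1 / (r * ρ) = (1 / ρ) * (1 / r) := by field_simp
          rw [this, mul_pow]; ring
      _ ≤ κ * 2 := by
          refine mul_le_mul_of_nonneg_left ?_ hκ0
          have hx : 0 ≤ 1 / (r * ρ) := by positivity
          have e1 : (1 + 1 / (r * ρ)) ^ (F p).card ≤ Real.exp (1 / (r * ρ)) ^ (F p).card :=
            pow_le_pow_left₀ (by positivity) (by linarith [Real.add_one_le_exp (1 / (r * ρ))]) _
          rw [← Real.exp_nat_mul] at e1
          refine e1.trans (le_trans (Real.exp_le_exp.2 ?_) spread_exp_half)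
          have hc : ((F p).card : ℝ) ≤ d := by exact_mod_cast hF p
          rw [mul_one_div, div_le_iff₀ hrρ]
          linarith
      _ = 2 * κ := mul_comm _ _
  have h2 : ∑ p, ∑ p', w p * w p' * (1 / ρ) ^ (F p ∩ F p').card ≤ (∑ p, w p) * (2 * κ) := by
    rw [sum_mul]
    refine sum_le_sum fun p _ => ?_
    have : ∑ p', w p * w p' * (1 / ρ) ^ (F p ∩ F p').card =
        w p * ∑ p', w p' * (1 / ρ) ^ (F p ∩ F p').card := by
      rw [mul_sum]; exact sum_congr rfl fun p' _ => by ring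
    rw [this]
    exact mul_le_mul_of_nonneg_left (key p) (hw p)
  have hE : 0 ≤ Ex ρ fun G => ind (∃ p, 0 < w p ∧ F p ⊆ G) :=
    spread_Ex_nonneg h0.le h1 fun _ => ind_nonneg _
  have h3 := (sm h0 h1 w hw F).trans (mul_le_mul_of_nonneg_left h2 hE)
  rcases hb.eq_or_lt with e | e
  · rw [← e]; positivity
  · refine le_of_mul_le_mul_left ?_ e
    nlinarith

/-- A union of `m` independent layers. -/
theorem boost {ρ : ℝ} {m : ℕ} (h0 : 0 ≤ ρ) (h1 : m * ρ ≤ 1) (D : Finset U → Prop)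
    (hD : ∀ A B, A ⊆ B → D B → D A) :
    Ex (m * ρ) (fun G => ind (D G)) ≤ Ex ρ (fun G => ind (D G)) ^ m := by
  induction m with
  | zero =>
    rw [pow_zero]
    have hz : (0 : ℝ) ≤ ((0 : ℕ) : ℝ) * ρ := by simp
    exact (Ex_mono hz h1 fun W => ind_le_one _).trans (Ex_const _ 1).le
  | succ m ih =>
    have e : ((m + 1 : ℕ) : ℝ) * ρ = m * ρ + ρ := by push_cast; ring
    rw [e] at h1 ⊢
    have hm0 : (0 : ℝ) ≤ m * ρ := mul_nonneg (Nat.cast_nonneg m) h0
    have hm1 : (m : ℝ) * ρ ≤ 1 := by linarith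
    have hρ1 : ρ ≤ 1 := by linarith
    have hanti : Antitone fun G : Finset U => ind (D G) := fun A B h => ind_mono (hD A B h)
    have hE : 0 ≤ Ex ρ fun G => ind (D G) := spread_Ex_nonneg h0 hρ1 fun _ => ind_nonneg _
    refine (Ex_add_le hm0 h0 h1 hanti).trans ?_
    calc Ex (m * ρ) (fun A => Ex ρ fun B => ind (D (A ∪ B)))
        ≤ Ex (m * ρ) fun A => (Ex ρ fun B => ind (D B)) * ind (D A) := by
          refine Ex_mono hm0 hm1 fun A => ?_
          rw [mul_comm, ← Ex_mul]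
          refine Ex_mono h0 hρ1 fun B => ?_
          by_cases h : D (A ∪ B)
          · rw [ind_true h, ind_true (hD _ _ subset_union_left h),
              ind_true (hD _ _ subset_union_right h), one_mul]
          · rw [ind_false h]; exact mul_nonneg (ind_nonneg _) (ind_nonneg _)
      _ = (Ex ρ fun B => ind (D B)) * Ex (m * ρ) fun A => ind (D A) := Ex_mul _ _ _
      _ ≤ (Ex ρ fun B => ind (D B)) * Ex ρ (fun G => ind (D G)) ^ m :=
          mul_le_mul_of_nonneg_left (ih hm1) hE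
      _ = _ := by rw [pow_succ]; ring

end Pool.Agent.Lib.MP_8a52c3_lc.Avg
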